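import Mathlib

namespace Pool.Agent.P.MP_25e9c6_co

open Finset

variable {T : Type} [Fintype T] [DecidableEq T]

/-- flip one coordinate -/
def flp (u : T → Bool) (e : T) : T → Bool := Function.update u e (!u e)

/-- isometric subset of the cube -/
def Iso (V : Set (T → Bool)) : Prop :=
  ∀ u ∈ V, ∀ w ∈ V, u ≠ w → ∃ e, u e ≠ w e ∧ flp u e ∈ V

def cube (R : Set T) (x : T → Bool) : Set (T → Bool) := {v | ∀ c ∈ R, v c = x c}

def sat (v : T → Bool) (p : T × Bool) : Prop := v p.1 = p.2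

def ng (p : T × Bool) : T × Bool := (p.1, !p.2)

def A1 (V : Set (T → Bool)) (p : T × Bool) : Prop := ∃ v ∈ V, sat v p

def A2 (V : Set (T → Bool)) (p q : T × Bool) : Prop := ∃ v ∈ V, sat v p ∧ sat v q

def A3 (V : Set (T → Bool)) (p q r : T × Bool) : Prop := ∃ v ∈ V, sat v p ∧ sat v q ∧ sat v r

def Dis (p q r : T × Bool) : Prop := p.1 ≠ q.1 ∧ p.1 ≠ r.1 ∧ q.1 ≠ r.1

def Six (V : Set (T → Bool)) (p q r : T × Bool) : Prop :=
  A3 V (ng p) q r ∧ A3 V p (ng q) r ∧ A3 V p q (ng r) ∧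
    A3 V p (ng q) (ng r) ∧ A3 V (ng p) q (ng r) ∧ A3 V (ng p) (ng q) r

structure Good (V : Set (T → Bool)) : Prop where
  iso : Iso V
  noq : ∀ R x p q r, Dis p q r → Six (V ∩ cube R x) p q r →
    A3 (V ∩ cube R x) (ng p) (ng q) (ng r) → A3 (V ∩ cube R x) p q r

def HexL (V : Set (T → Bool)) (p q r : T × Bool) : Prop :=
  Dis p q r ∧ ¬ A3 V p q r ∧ ¬ A3 V (ng p) (ng q) (ng r) ∧ Six V p q r

omit [Fintype T] [DecidableEq T] in
@[simp] lemma ng_ng (p : T × Bool) : ng (ng p) = p := by simp [ng]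

omit [Fintype T] [DecidableEq T] in
@[simp] lemma ng_fst (p : T × Bool) : (ng p).1 = p.1 := rfl

omit [Fintype T] [DecidableEq T] in
@[simp] lemma sat_ng (v : T → Bool) (p : T × Bool) : sat v (ng p) ↔ ¬ sat v p := by
  simp only [sat, ng]
  cases v p.1 <;> cases p.2 <;> simp

omit [Fintype T] [DecidableEq T] in
lemma sat_congr {u v : T → Bool} {p : T × Bool} (h : u p.1 = v p.1) : sat u p ↔ sat v p := by
  simp only [sat, h]

omit [Fintype T] [DecidableEq T] in
lemma eq_iff_sat (u v : T → Bool) (p : T × Bool) : u p.1 = v p.1 ↔ (sat u p ↔ sat v p) := by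
  simp only [sat]
  cases u p.1 <;> cases v p.1 <;> cases p.2 <;> simp

omit [Fintype T] in
lemma flp_self {u w : T → Bool} {e : T} (h : u e ≠ w e) : flp u e e = w e := by
  simp only [flp, Function.update_self]
  revert h
  cases u e <;> cases w e <;> simp

omit [Fintype T] in
lemma flp_ne (u : T → Bool) {e c : T} (h : c ≠ e) : flp u e c = u c := by
  simp [flp, h]

lemma dd_flp {u w : T → Bool} {e : T} (h : u e ≠ w e) :
    hammingDist (flp u e) w + 1 = hammingDist u w := by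
  have : (univ.filter fun c => u c ≠ w c) = insert e (univ.filter fun c => flp u e c ≠ w c) := by
    ext c
    simp only [mem_filter, mem_univ, true_and, mem_insert]
    by_cases hc : c = e
    · subst hc; simpa using h
    · simp [flp_ne u hc, hc]
  rw [hammingDist, hammingDist, this, card_insert_of_notMem]
  simp only [mem_filter, mem_univ, true_and, ne_eq, not_not]
  exact flp_self h

lemma first_flip {V : Set (T → Bool)} (hV : Iso V) (A : Set T) :
    ∀ n, ∀ u ∈ V, ∀ w ∈ V, hammingDist u w = n → (∃ a ∈ A, u a ≠ w a) →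
      ∃ z ∈ V, ∃ e ∈ A, u e ≠ w e ∧ z e = w e ∧ (∀ a ∈ A, a ≠ e → z a = u a) ∧
        ∀ c, u c = w c → z c = u c := by
  intro n
  induction n with
  | zero =>
    rintro u - w - h ⟨a, -, ha⟩
    rw [hammingDist_eq_zero] at h
    exact absurd (by rw [h]) ha
  | succ n ih =>
    rintro u hu w hw h ⟨a, haA, ha⟩
    obtain ⟨e, he, hf⟩ := hV u hu w hw (fun h => ha (by rw [h]))
    by_cases heA : e ∈ A
    · refine ⟨_, hf, e, heA, he, flp_self he, fun a _ h => flp_ne u h, fun c hc => flp_ne u ?_⟩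
      rintro rfl
      exact he hc
    · have hae : a ≠ e := fun h => heA (h ▸ haA)
      obtain ⟨z, hz, e', he'A, h1, h2, h3, h4⟩ := ih _ hf w hw (by have := dd_flp he; omega)
        ⟨a, haA, by rwa [flp_ne u hae]⟩
      have hne : ∀ a ∈ A, flp u e a = u a := fun a h => flp_ne u (fun h' => heA (h' ▸ h))
      refine ⟨z, hz, e', he'A, by rwa [hne e' he'A] at h1, h2,
        fun a h h' => (h3 a h h').trans (hne a h), fun c hc => ?_⟩
      have hce : c ≠ e := by
        rintro rfl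
        exact he hc
      rw [h4 c (by rwa [flp_ne u hce]), flp_ne u hce]

omit [Fintype T] in
lemma Iso.inter {V : Set (T → Bool)} (hV : Iso V) (R : Set T) (x : T → Bool) :
    Iso (V ∩ cube R x) := by
  rintro u ⟨hu, hu'⟩ w ⟨hw, hw'⟩ h
  obtain ⟨e, he, hf⟩ := hV u hu w hw h
  refine ⟨e, he, hf, fun c hc => ?_⟩
  rw [flp_ne, hu' c hc]
  rintro rfl
  exact he ((hu' c hc).trans (hw' c hc).symm)

/-- literals on which `u` and `w` agree are kept by `z` -/
def Btw (u w z : T → Bool) : Prop := ∀ t : T × Bool, (sat u t ↔ sat w t) → (sat z t ↔ sat u t)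

lemma step2 {V : Set (T → Bool)} (hV : Iso V) {u w : T → Bool} (hu : u ∈ V) (hw : w ∈ V)
    {p q : T × Bool} (hpq : p.1 ≠ q.1) (h1 : sat u p) (h2 : sat u q)
    (h3 : ¬ sat w p ∨ ¬ sat w q) :
    ∃ z ∈ V, Btw u w z ∧ (¬ sat z p ∧ ¬ sat w p ∧ sat z q ∨ sat z p ∧ ¬ sat z q ∧ ¬ sat w q) := by
  obtain ⟨z, hz, e, he, g1, g2, g3, g4⟩ := first_flip hV {p.1, q.1} _ u hu w hw rfl (by
    rcases h3 with h | h
    · exact ⟨p.1, by simp, by rw [Ne, eq_iff_sat]; grind⟩
    · exact ⟨q.1, by simp, by rw [Ne, eq_iff_sat]; grind⟩)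
  refine ⟨z, hz, fun t ht => (eq_iff_sat _ _ t).1 (g4 _ ((eq_iff_sat _ _ t).2 ht)), ?_⟩
  rcases he with rfl | rfl
  · have := g3 q.1 (by simp) hpq.symm
    rw [Ne, eq_iff_sat] at g1
    rw [eq_iff_sat] at g2 this
    grind
  · have := g3 p.1 (by simp) hpq
    rw [Ne, eq_iff_sat] at g1
    rw [eq_iff_sat] at g2 this
    grind

lemma step3 {V : Set (T → Bool)} (hV : Iso V) {u w : T → Bool} (hu : u ∈ V) (hw : w ∈ V)
    {p q r : T × Bool} (hd : Dis p q r) (h1 : sat u p) (h2 : sat u q) (h2' : sat u r)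
    (h3 : ¬ sat w p) :
    ∃ z ∈ V, Btw u w z ∧ (¬ sat z p ∧ sat z q ∧ sat z r ∨ sat z p ∧ ¬ sat z q ∧ sat z r ∨
      sat z p ∧ sat z q ∧ ¬ sat z r) := by
  obtain ⟨z, hz, e, he, g1, g2, g3, g4⟩ := first_flip hV {p.1, q.1, r.1} _ u hu w hw rfl
    ⟨p.1, by simp, by rw [Ne, eq_iff_sat]; grind⟩
  refine ⟨z, hz, fun t ht => (eq_iff_sat _ _ t).1 (g4 _ ((eq_iff_sat _ _ t).2 ht)), ?_⟩
  obtain ⟨d1, d2, d3⟩ := hd
  rcases he with rfl | rfl | rfl
  · have k1 := g3 q.1 (by simp) d1.symm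
    have k2 := g3 r.1 (by simp) d2.symm
    rw [Ne, eq_iff_sat] at g1
    rw [eq_iff_sat] at g2 k1 k2
    grind
  · have k1 := g3 p.1 (by simp) d1
    have k2 := g3 r.1 (by simp) d3.symm
    rw [Ne, eq_iff_sat] at g1
    rw [eq_iff_sat] at g2 k1 k2
    grind
  · have k1 := g3 p.1 (by simp) d2
    have k2 := g3 q.1 (by simp) d3
    rw [Ne, eq_iff_sat] at g1
    rw [eq_iff_sat] at g2 k1 k2
    grind

omit [Fintype T] [DecidableEq T] in
lemma A3.swap12 {V : Set (T → Bool)} {p q r : T × Bool} (h : A3 V p q r) : A3 V q p r := by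
  obtain ⟨v, hv, a, b, c⟩ := h
  exact ⟨v, hv, b, a, c⟩

omit [Fintype T] [DecidableEq T] in
lemma A3.swap23 {V : Set (T → Bool)} {p q r : T × Bool} (h : A3 V p q r) : A3 V p r q := by
  obtain ⟨v, hv, a, b, c⟩ := h
  exact ⟨v, hv, a, c, b⟩

omit [Fintype T] [DecidableEq T] in
lemma HexL.swap12 {V : Set (T → Bool)} {p q r : T × Bool} (h : HexL V p q r) : HexL V q p r := by
  obtain ⟨⟨d1, d2, d3⟩, n1, n2, a, b, c, d, e, f⟩ := h
  exact ⟨⟨d1.symm, d3, d2⟩, fun h => n1 h.swap12, fun h => n2 h.swap12, b.swap12, a.swap12,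
    c.swap12, e.swap12, d.swap12, f.swap12⟩

omit [Fintype T] [DecidableEq T] in
lemma HexL.swap23 {V : Set (T → Bool)} {p q r : T × Bool} (h : HexL V p q r) : HexL V p r q := by
  obtain ⟨⟨d1, d2, d3⟩, n1, n2, a, b, c, d, e, f⟩ := h
  exact ⟨⟨d2, d1, d3.symm⟩, fun h => n1 h.swap23, fun h => n2 h.swap23, a.swap23, c.swap23,
    b.swap23, d.swap23, f.swap23, e.swap23⟩

omit [Fintype T] [DecidableEq T] in
lemma HexL.neg {V : Set (T → Bool)} {p q r : T × Bool} (h : HexL V p q r) :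
    HexL V (ng p) (ng q) (ng r) := by
  obtain ⟨d0, n1, n2, a, b, c, d, e, f⟩ := h
  refine ⟨d0, n2, by simpa using n1, ?_⟩
  simp only [Six, ng_ng]
  exact ⟨d, e, f, a, b, c⟩

omit [Fintype T] [DecidableEq T] in
lemma HexL.no {V : Set (T → Bool)} {p q r : T × Bool} (h : HexL V p q r) {v : T → Bool}
    (hv : v ∈ V) : ¬ (sat v p ∧ sat v q ∧ sat v r) ∧ (sat v p ∨ sat v q ∨ sat v r) := by
  refine ⟨fun g => h.2.1 ⟨v, hv, g⟩, ?_⟩
  by_contra g
  exact h.2.2.1 ⟨v, hv, by simp only [sat_ng]; grind⟩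

omit [Fintype T] in
lemma Good.noq' {V : Set (T → Bool)} (hV : Good V) {p q r : T × Bool} (hd : Dis p q r)
    (h6 : Six V p q r) (h7 : A3 V (ng p) (ng q) (ng r)) : A3 V p q r := by
  have := hV.noq ∅ (fun _ => true) p q r hd
  have e : V ∩ cube ∅ (fun _ => true) = V := by simp [cube]
  rw [e] at this
  exact this h6 h7

lemma helly3 {V : Set (T → Bool)} (hV : Good V) {p q r : T × Bool} (hd : Dis p q r)
    (h1 : A2 V p q) (h2 : A2 V p r) (h3 : A2 V q r) (h : ¬ A3 V p q r) : HexL V p q r := by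
  obtain ⟨a, ha, a1, a2⟩ := h1
  obtain ⟨b, hb, b1, b2⟩ := h2
  obtain ⟨c, hc, c1, c2⟩ := h3
  have no : ∀ v ∈ V, ¬ (sat v p ∧ sat v q ∧ sat v r) := fun v hv g => h ⟨v, hv, g⟩
  have a3 := no a ha
  have b3 := no b hb
  have c3 := no c hc
  obtain ⟨d1, d2, d3⟩ := hd
  have h6 : Six V p q r := by
    refine ⟨⟨c, hc, by simp only [sat_ng]; grind⟩, ⟨b, hb, by simp only [sat_ng]; grind⟩,
      ⟨a, ha, by simp only [sat_ng]; grind⟩, ?_, ?_, ?_⟩
    · obtain ⟨z, hz, z1, z2⟩ := step2 hV.iso ha hb (p := q) (q := ng r) d3 a2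
        (by simp only [sat_ng]; grind) (by grind)
      have := z1 p
      have := no z hz
      exact ⟨z, hz, by simp only [sat_ng] at *; grind⟩
    · obtain ⟨z, hz, z1, z2⟩ := step2 hV.iso ha hc (p := p) (q := ng r) d2 a1
        (by simp only [sat_ng]; grind) (by grind)
      have := z1 q
      have := no z hz
      exact ⟨z, hz, by simp only [sat_ng] at *; grind⟩
    · obtain ⟨z, hz, z1, z2⟩ := step2 hV.iso hb hc (p := p) (q := ng q) d1 b1
        (by simp only [sat_ng]; grind) (by grind)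
      have := z1 r
      have := no z hz
      exact ⟨z, hz, by simp only [sat_ng] at *; grind⟩
  exact ⟨⟨d1, d2, d3⟩, h, fun g => h (hV.noq' ⟨d1, d2, d3⟩ h6 g), h6⟩

end Pool.Agent.P.MP_25e9c6_co
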