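import Pool.Agent.P.MP_25e9c6_co.Line

namespace Pool.Agent.P.MP_25e9c6_co

open Finset

variable {T : Type} [Fintype T] [DecidableEq T] {V : Set (T → Bool)}

omit [DecidableEq T] in
lemma exists_fix (φ : T → ℕ) (Φ : (T → ℝ) → T → ℝ)
    (h : ∀ m m' F, (∀ E, φ E < φ F → m E = m' E) → Φ m F = Φ m' F) : ∃ m, ∀ F, m F = Φ m F := by
  have key : ∀ n F, φ F < n → Φ^[n] 0 F = Φ^[n + 1] 0 F := by
    intro n
    induction n with
    | zero => intro F hF; omega
    | succ n ih =>
      intro F hF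
      rw [Function.iterate_succ_apply' Φ (n + 1), Function.iterate_succ_apply' Φ n]
      refine h _ _ F fun E hE => ?_
      rw [ih E (by omega), Function.iterate_succ_apply' Φ n]
  refine ⟨Φ^[univ.sup φ + 1] 0, fun F => ?_⟩
  rw [key _ F (Nat.lt_succ_of_le (le_sup (mem_univ F))), Function.iterate_succ_apply' Φ]

lemma exists_point (hV : Good V) {v : T → Bool} (hv : v ∈ V)
    (L : {S : Finset T // IsLine V S} → Submodule ℝ (T → ℝ))
    (hL : ∀ S : {S : Finset T // IsLine V S}, ∃ a ∈ S.1, ∃ b ∈ S.1, ∃ c1 c2 : T → ℝ,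
        (∀ F ∈ S.1, F ≠ a → F ≠ b → Mid V v a F b ∧ 1 ≤ c1 F ∧ 1 ≤ c2 F) ∧
        ∀ x : T → ℝ, (∀ F ∈ S.1, F ≠ a → F ≠ b →
          val x (pl v F) = c1 F * val x (pl v a) + c2 F * val x (pl v b)) → x ∈ L S) :
    ∃ x : T → ℝ, (∀ e, 0 < val x (pl v e)) ∧ (∀ S, x ∈ L S) ∧
      ∀ E F, Sep V v E F → val x (pl v E) ≤ val x (pl v F) := by
  classical
  choose a ha b hb c1 c2 h1 h2 using hL
  have lt : ∀ S F, F ∈ S.1 → F ≠ a S → F ≠ b S →
      phi V v (a S) < phi V v F ∧ phi V v (b S) < phi V v F := by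
    intro S F hF n1 n2
    have m := (h1 S F hF n1 n2).1
    refine ⟨phi_mid hV hv S.2 (ha S) hF (hb S) m
      (not_mid hV.iso hv fun F hF n1 n2 => (h1 S F hF n1 n2).1), ?_⟩
    exact phi_mid hV hv S.2 (hb S) hF (ha S) m.swap12.swap23.swap12
      (not_mid hV.iso hv fun F hF n2 n1 => (h1 S F hF n1 n2).1.swap12.swap23.swap12)
  let D : T → Prop := fun F => ∃ S : {S : Finset T // IsLine V S}, F ∈ S.1 ∧ F ≠ a S ∧ F ≠ b S
  obtain ⟨m, hm⟩ := exists_fix (phi V v) (fun m F => if h : D F then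
      c1 h.choose F * m (a h.choose) + c2 h.choose F * m (b h.choose)
    else 1 + ∑ E with phi V v E < phi V v F, m E) (by
      intro m m' F hE
      by_cases h : D F
      · obtain ⟨k1, k2, k3⟩ := h.choose_spec
        simp only [h, dif_pos]
        rw [hE _ (lt _ F k1 k2 k3).1, hE _ (lt _ F k1 k2 k3).2]
      · simp only [h, dif_neg, not_false_eq_true]
        rw [sum_congr rfl fun E hE' => hE E (mem_filter.1 hE').2])
  have m1 : ∀ S F, F ∈ S.1 → F ≠ a S → F ≠ b S → m F = c1 S F * m (a S) + c2 S F * m (b S) := by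
    intro S F hF n1 n2
    have h : D F := ⟨S, hF, n1, n2⟩
    obtain ⟨k1, k2, k3⟩ := h.choose_spec
    have : h.choose = S := Subtype.ext (mid_unique hV hv h.choose.2 S.2 k1 hF (ha _) (hb _) (ha _)
      (hb _) (h1 _ F k1 k2 k3).1 (h1 _ F hF n1 n2).1)
    rw [hm F]
    simp only [h, dif_pos, this]
  have m2 : ∀ F, ¬ D F → m F = 1 + ∑ E with phi V v E < phi V v F, m E := by
    intro F h
    rw [hm F]
    simp only [h, dif_neg, not_false_eq_true]
  have pos : ∀ n F, phi V v F = n → 0 < m F := by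
    intro n
    induction n using Nat.strong_induction_on with
    | h n ih =>
    intro F hF
    by_cases h : D F
    · obtain ⟨S, k1, k2, k3⟩ := h
      obtain ⟨l1, l2⟩ := lt S F k1 k2 k3
      obtain ⟨-, g1, g2⟩ := h1 S F k1 k2 k3
      have := ih _ (hF ▸ l1) _ rfl
      have := ih _ (hF ▸ l2) _ rfl
      rw [m1 S F k1 k2 k3]
      positivity
    · rw [m2 F h]
      have : 0 ≤ ∑ E with phi V v E < phi V v F, m E :=
        sum_nonneg fun E hE => (ih _ (hF ▸ (mem_filter.1 hE).2) _ rfl).le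
      linarith
  have pos' : ∀ F, 0 < m F := fun F => pos _ F rfl
  have mono : ∀ n E F, phi V v F = n → Sep V v E F → m E ≤ m F := by
    intro n
    induction n using Nat.strong_induction_on with
    | h n ih =>
    intro E F hF hs
    by_cases h : D F
    · obtain ⟨S, k1, k2, k3⟩ := h
      obtain ⟨l1, l2⟩ := lt S F k1 k2 k3
      obtain ⟨g0, g1, g2⟩ := h1 S F k1 k2 k3
      have p1 := pos' (a S)
      have p2 := pos' (b S)
      rw [m1 S F k1 k2 k3]
      rcases sep_mid hV hs g0 with s | s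
      · have := ih _ (hF ▸ l1) E _ rfl s
        nlinarith
      · have := ih _ (hF ▸ l2) E _ rfl s
        nlinarith
    · rw [m2 F h]
      have : m E ≤ ∑ E with phi V v E < phi V v F, m E :=
        single_le_sum (f := m) (fun E _ => (pos' E).le)
          (mem_filter.2 ⟨mem_univ _, phi_sep hV.iso hv hs⟩)
      linarith
  have vx : ∀ e, val (fun e => if v e then m e else -m e) (pl v e) = m e := by
    intro e
    by_cases h : v e = true <;> simp [val, pl, h]
  refine ⟨fun e => if v e then m e else -m e, fun e => by rw [vx]; exact pos' e,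
    fun S => h2 S _ fun F hF n1 n2 => ?_, fun E F hs => ?_⟩
  · simp only [vx]
    exact m1 S F hF n1 n2
  · simp only [vx]
    exact mono _ E F rfl hs

omit [Fintype T] [DecidableEq T] in
lemma val_sum {I : Type} [Fintype I] (l : I → ℝ) (p : I → T → ℝ) (q : T × Bool) :
    val (∑ i, l i • p i) q = ∑ i, l i * val (p i) q := by
  obtain ⟨e, a⟩ := q
  cases a <;> simp [val, Finset.sum_apply]

/-- points whose cone meets exactly the orthants indexed by `V` -/
theorem exists_cone (hV : Good V) {I : Type} [Fintype I] [Nonempty I] (ψ : I → T → Bool)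
    (hψ : ∀ i, ψ i ∈ V) : ∃ p : I → T → ℝ, (∀ i e, 0 < val (p i) (pl (ψ i) e)) ∧
      ∀ l : I → ℝ, (∀ i, 0 ≤ l i) → ∀ X : T → Bool,
        (∀ e, 0 < val (∑ i, l i • p i) (pl X e)) → X ∈ V := by
  have hne : V.Nonempty := ⟨_, hψ (Classical.arbitrary I)⟩
  choose L hL1 hL2 using fun S : {S : Finset T // IsLine V S} => line_real hV hne S.2
  choose p p1 p2 p3 using fun i => exists_point hV (hψ i) L fun S => hL2 S _ (hψ i)
  refine ⟨p, p1, fun l hl X hX => ?_⟩
  have sg : ∀ i q, ¬ sat (ψ i) q → val (p i) q < 0 ∧ q = ng (pl (ψ i) q.1) := by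
    intro i q hq
    rcases lit_cases' (p := pl (ψ i) q.1) (q := q) rfl with h | h
    · exact absurd (h ▸ sat_self _ _) hq
    · refine ⟨?_, h⟩
      rw [h, val_ng]
      linarith [p1 i q.1]
  have sg' : ∀ i q, sat (ψ i) q → q = pl (ψ i) q.1 := by
    intro i q hq
    rcases lit_cases' (p := pl (ψ i) q.1) (q := q) rfl with h | h
    · exact h
    · rw [h, sat_ng] at hq
      exact absurd (sat_self _ _) hq
  have a1 : ∀ e, A1 V (pl X e) := by
    intro e
    by_contra hn
    have := hX e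
    rw [val_sum] at this
    have h2 : ∑ i, l i * val (p i) (pl X e) ≤ 0 := sum_nonpos fun i _ =>
      mul_nonpos_of_nonneg_of_nonpos (hl i) (sg i _ fun h => hn ⟨_, hψ i, h⟩).1.le
    linarith
  obtain ⟨v, hv, h⟩ := helly hV hne X univ (by
    intro e _ f _
    by_cases hef : e = f
    · obtain ⟨z, hz, z1⟩ := a1 e
      exact ⟨z, hz, z1, hef ▸ z1⟩
    by_contra hn
    have key : ∀ e f, e ≠ f → ¬ A2 V (pl X e) (pl X f) → ∀ i, sat (ψ i) (pl X e) →
        val (p i) (pl X e) + val (p i) (pl X f) ≤ 0 := by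
      intro e f hef hn i hi
      have e1 := sg' i _ hi
      have e2 := (sg i (pl X f) fun h => hn ⟨_, hψ i, hi, h⟩).2
      simp only [pl_fst] at e1 e2
      have := p3 i e f ⟨hef, e2 ▸ a1 f, by rw [← e1, ← e2]; exact hn⟩
      rw [e1, e2, val_ng]
      linarith
    have h2 : ∑ i, l i * (val (p i) (pl X e) + val (p i) (pl X f)) ≤ 0 := by
      refine sum_nonpos fun i _ => mul_nonpos_of_nonneg_of_nonpos (hl i) ?_
      by_cases c1 : sat (ψ i) (pl X e)
      · exact key e f hef hn i c1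
      by_cases c2 : sat (ψ i) (pl X f)
      · linarith [key f e (Ne.symm hef) (fun h => hn h.symm) i c2]
      linarith [(sg i _ c1).1, (sg i _ c2).1]
    have k1 := hX e
    have k2 := hX f
    rw [val_sum] at k1 k2
    simp only [mul_add, sum_add_distrib] at h2
    linarith) (by
    intro e _ f _ g _ h
    obtain ⟨S, hS, k1, k2, k3⟩ := exists_line hV.iso h.hex
    exact hL1 ⟨S, hS⟩ _ (Submodule.sum_mem _ fun i _ => Submodule.smul_mem _ _ (p2 i _)) _ _ _
      k1 k2 k3 (hX e) (hX f) (hX g) h)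
  have : v = X := funext fun e => h e (mem_univ e)
  exact this ▸ hv

end Pool.Agent.P.MP_25e9c6_co
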