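import Mathlib

namespace Pool.Agent.P.MP_25e9c6_co

/-- isometric subgraph of a hypercube -/
def IsPartialCube {W : Type} (G : SimpleGraph W) : Prop :=
  G.Connected ∧ ∃ (n : ℕ) (φ : W → Fin n → Bool), ∀ u v, G.dist u v = hammingDist (φ u) (φ v)

/-- the Djokovic-Winkler relation between the edges `u v` and `x y` -/
def Theta {W : Type} (G : SimpleGraph W) (u v x y : W) : Prop :=
  G.dist u x + G.dist v y ≠ G.dist u y + G.dist v x

/-- contract all edges that are in relation Theta with the edge `x y` -/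
def contract {W : Type} (G : SimpleGraph W) (x y : W) :
    SimpleGraph (Quot fun u v => G.Adj u v ∧ Theta G u v x y) :=
  G.map (Quot.mk fun u v => G.Adj u v ∧ Theta G u v x y)

/-- `S` contains every shortest path between two of its vertices -/
def IsConvexIn {W : Type} (G : SimpleGraph W) (S : Set W) : Prop :=
  ∀ u ∈ S, ∀ v ∈ S, ∀ p : G.Walk u v, p.length = G.dist u v → ∀ w ∈ p.support, w ∈ S

/-- pc-minors of `G` -/
inductive PcMinor {W : Type} (G : SimpleGraph W) : (W' : Type) → SimpleGraph W' → Prop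
  | refl : PcMinor G W G
  | contr {W' : Type} {H : SimpleGraph W'} (x y : W') :
      PcMinor G W' H → H.Adj x y → PcMinor G _ (contract H x y)
  | restr {W' : Type} {H : SimpleGraph W'} (S : Set W') :
      PcMinor G W' H → IsConvexIn H S → PcMinor G _ (H.induce S)

/-- the 3-cube minus a vertex -/
def Q3minus : SimpleGraph {a : Fin 3 → Bool | a ≠ fun _ => true} :=
  (SimpleGraph.fromRel fun a b : Fin 3 → Bool => hammingDist a b = 1).induce _

def Hypercellular {W : Type} (G : SimpleGraph W) : Prop :=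
  IsPartialCube G ∧ ∀ (W' : Type) (H : SimpleGraph W'), PcMinor G W' H →
    IsEmpty (SimpleGraph.Iso H Q3minus)

/-- the regions: connected components of the complement of the arrangement -/
def regions {d : ℕ} (𝒜 : Finset (Submodule ℝ (Fin d → ℝ))) : Set (Set (Fin d → ℝ)) :=
  {R | ∃ x, (∀ H ∈ 𝒜, x ∉ H) ∧ R = connectedComponentIn {y | ∀ H ∈ 𝒜, y ∉ H} x}

/-- `R` and `R'` lie strictly on opposite sides of the hyperplane `H` -/
def Separates {d : ℕ} (H : Submodule ℝ (Fin d → ℝ)) (R R' : Set (Fin d → ℝ)) : Prop :=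
  ∃ f : (Fin d → ℝ) →ₗ[ℝ] ℝ, LinearMap.ker f = H ∧ (∀ x ∈ R, 0 < f x) ∧ ∀ x ∈ R', f x < 0

def topeGraph {d : ℕ} (𝒜 : Finset (Submodule ℝ (Fin d → ℝ))) : SimpleGraph (regions 𝒜) :=
  SimpleGraph.fromRel fun R R' => ∃! H, H ∈ 𝒜 ∧ Separates H R.1 R'.1

end Pool.Agent.P.MP_25e9c6_co
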