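import Pool.Agent.P.MP_25e9c6_co.Comb
import Pool.Agent.P.MP_25e9c6_co.Defs

namespace Pool.Agent.P.MP_25e9c6_co

open Finset

variable {T : Type} [Fintype T] [DecidableEq T] {W : Type} {G : SimpleGraph W}

structure Emb (G : SimpleGraph W) (ψ : W → T → Bool) : Prop where
  inj : Function.Injective ψ
  adj : ∀ u v, G.Adj u v ↔ hammingDist (ψ u) (ψ v) = 1

lemma hd_flp (u : T → Bool) (e : T) : hammingDist u (flp u e) = 1 := by
  have h : u e ≠ flp u e e := by simp [flp]
  have := dd_flp h
  have e2 : flp u e = flp u e := rfl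
  rw [hammingDist_self] at this
  omega

lemma eq_flp {u v : T → Bool} (h : hammingDist u v = 1) {e : T} (he : u e ≠ v e) :
    v = flp u e := by
  have := dd_flp he
  rw [h] at this
  exact (hammingDist_eq_zero.1 (by omega)).symm

omit [DecidableEq T] in
lemma exists_ne_of_hd {u v : T → Bool} (h : hammingDist u v ≠ 0) : ∃ e, u e ≠ v e := by
  by_contra hn
  push Not at hn
  exact h (hammingDist_eq_zero.2 (funext hn))

omit [Fintype T] in
lemma flp_flp (u : T → Bool) (e : T) : flp (flp u e) e = u := by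
  funext c
  by_cases h : c = e
  · subst h; simp [flp]
  · simp [flp_ne, h]

lemma dd_flp' {u w : T → Bool} {e : T} (h : u e = w e) :
    hammingDist (flp u e) w = hammingDist u w + 1 := by
  have h' : flp u e e ≠ w e := by simp [flp, h]
  have := dd_flp h'
  rw [flp_flp] at this
  omega

omit [DecidableEq T] in
lemma Emb.le_length {ψ : W → T → Bool} (h : Emb G ψ) {u v : W} (p : G.Walk u v) :
    hammingDist (ψ u) (ψ v) ≤ p.length := by
  induction p with
  | nil => simp
  | @cons a b c hab p ih =>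
    have := hammingDist_triangle (ψ a) (ψ b) (ψ c)
    rw [(h.adj a b).1 hab] at this
    simp only [SimpleGraph.Walk.length_cons]
    omega

lemma Emb.walk {ψ : W → T → Bool} (h : Emb G ψ) {U : Set (T → Bool)} (hU : Iso U)
    (hs : U ⊆ Set.range ψ) : ∀ n u v, ψ u ∈ U → ψ v ∈ U → hammingDist (ψ u) (ψ v) = n →
      ∃ p : G.Walk u v, p.length = n := by
  intro n
  induction n with
  | zero =>
    intro u v _ _ hn
    obtain rfl := h.inj (hammingDist_eq_zero.1 hn)
    exact ⟨.nil, rfl⟩
  | succ n ih =>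
    intro u v hu hv hn
    obtain ⟨e, he, hf⟩ := hU _ hu _ hv (fun h => by rw [h] at hn; simp at hn)
    obtain ⟨z, hz⟩ := hs hf
    have := dd_flp he
    obtain ⟨p, hp⟩ := ih z v (hz ▸ hf) hv (by rw [hz]; omega)
    exact ⟨.cons ((h.adj u z).2 (hz ▸ hd_flp _ _)) p, by simp [hp]⟩

lemma Emb.dist_eq {ψ : W → T → Bool} (h : Emb G ψ) {U : Set (T → Bool)} (hU : Iso U)
    (hs : U ⊆ Set.range ψ) {u v : W} (hu : ψ u ∈ U) (hv : ψ v ∈ U) :
    G.dist u v = hammingDist (ψ u) (ψ v) := by
  obtain ⟨p, hp⟩ := h.walk hU hs _ u v hu hv rfl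
  obtain ⟨q, hq⟩ := p.reachable.exists_walk_length_eq_dist
  have := h.le_length q
  have := SimpleGraph.dist_le p
  omega

lemma hd_btw {a b c : T → Bool} (h : hammingDist a b + hammingDist b c ≤ hammingDist a c) {e : T}
    (he : a e = c e) : b e = a e := by
  by_contra hn
  have h1 := dd_flp hn
  have h2 : b e ≠ c e := he ▸ hn
  have h3 := dd_flp h2
  have := hammingDist_triangle a (flp b e) c
  rw [hammingDist_comm a (flp b e)] at this
  rw [hammingDist_comm a b] at h
  omega

lemma Emb.convex {ψ : W → T → Bool} (h : Emb G ψ) (K : Set T) (x : T → Bool)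
    (hU : Iso (Set.range ψ ∩ cube K x)) : IsConvexIn G {u | ψ u ∈ cube K x} := by
  classical
  intro u hu v hv p hp w hw c hc
  rw [h.dist_eq hU Set.inter_subset_left ⟨⟨u, rfl⟩, hu⟩ ⟨⟨v, rfl⟩, hv⟩] at hp
  have h1 := h.le_length (p.takeUntil w hw)
  have h2 := h.le_length (p.dropUntil w hw)
  have h3 := congrArg SimpleGraph.Walk.length (p.take_spec hw)
  rw [SimpleGraph.Walk.length_append] at h3
  rw [hd_btw (a := ψ u) (b := ψ w) (c := ψ v) (by omega) ((hu c hc).trans (hv c hc).symm)]
  exact hu c hc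

omit [DecidableEq T] in
lemma Emb.induce {ψ : W → T → Bool} (h : Emb G ψ) (S : Set W) :
    Emb (G.induce S) (fun u => ψ u.1) :=
  ⟨fun _ _ e => Subtype.ext (h.inj e), fun u v => h.adj u.1 v.1⟩

omit [DecidableEq T] in
lemma Emb.iso {ψ : W → T → Bool} (h : Emb G ψ) {W' : Type} {G' : SimpleGraph W'}
    {ψ' : W' → T → Bool} (h' : Emb G' ψ') (hr : Set.range ψ = Set.range ψ') :
    Nonempty (SimpleGraph.Iso G G') := by
  have : ∀ u, ∃ u', ψ' u' = ψ u := fun u => (hr ▸ ⟨u, rfl⟩ : ψ u ∈ Set.range ψ')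
  choose g hg using this
  refine ⟨⟨Equiv.ofBijective g ⟨fun a b e => h.inj (by rw [← hg, ← hg, e]), fun u' => ?_⟩, ?_⟩⟩
  · obtain ⟨u, hu⟩ : ψ' u' ∈ Set.range ψ := hr ▸ ⟨u', rfl⟩
    exact ⟨u, h'.inj (by rw [hg, hu])⟩
  · intro a b
    change G'.Adj (g a) (g b) ↔ _
    rw [h'.adj, h.adj, hg, hg]

lemma emb_of_dist (hc : G.Connected) {ψ : W → T → Bool}
    (h : ∀ u v, G.dist u v = hammingDist (ψ u) (ψ v)) : Emb G ψ ∧ Iso (Set.range ψ) := by
  have adj : ∀ u v, G.Adj u v ↔ hammingDist (ψ u) (ψ v) = 1 := fun u v => by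
    rw [← h, SimpleGraph.dist_eq_one_iff_adj]
  refine ⟨⟨fun u v e => ?_, adj⟩, ?_⟩
  · rw [← hc.dist_eq_zero_iff, h, e, hammingDist_self]
  · rintro _ ⟨u, rfl⟩ _ ⟨w, rfl⟩ hne
    obtain ⟨p, hp⟩ := hc.exists_walk_length_eq_dist u w
    cases p with
    | nil => exact absurd rfl hne
    | @cons _ z _ huz p =>
      have h1 := (adj u z).1 huz
      obtain ⟨e, he⟩ := exists_ne_of_hd (h1 ▸ one_ne_zero)
      have h2 := eq_flp h1 he
      refine ⟨e, fun h3 => ?_, z, h2⟩
      have h4 := dd_flp' h3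
      have := SimpleGraph.dist_le p
      simp only [SimpleGraph.Walk.length_cons] at hp
      rw [← h2, ← h, ← h] at h4
      omega

lemma theta_iff {ψ : W → T → Bool} (h : Emb G ψ) (hI : Iso (Set.range ψ)) {u v x y : W}
    (huv : G.Adj u v) (hxy : G.Adj x y) {c : T} (hc : ψ x c ≠ ψ y c) :
    Theta G u v x y ↔ ψ u c ≠ ψ v c := by
  have hd : ∀ u v, G.dist u v = hammingDist (ψ u) (ψ v) := fun u v =>
    h.dist_eq hI subset_rfl ⟨u, rfl⟩ ⟨v, rfl⟩
  have h1 := (h.adj _ _).1 huv
  obtain ⟨a, ha⟩ := exists_ne_of_hd (h1 ▸ one_ne_zero)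
  have e1 := eq_flp h1 ha
  have e2 := eq_flp ((h.adj _ _).1 hxy) hc
  simp only [Theta, hd]
  by_cases hac : a = c
  · subst hac
    refine ⟨fun _ => ha, fun _ => ?_⟩
    by_cases k : ψ u a = ψ x a
    · have k1 := dd_flp' k
      have k2 : ψ u a ≠ ψ y a := k ▸ hc
      have k3 := dd_flp k2
      rw [← e1] at k1 k3
      omega
    · have k1 := dd_flp k
      have k2 : ψ u a = ψ y a := by
        revert k hc
        cases ψ u a <;> cases ψ x a <;> cases ψ y a <;> simp
      have k3 := dd_flp' k2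
      rw [← e1] at k1 k3
      omega
  · have k0 : ψ v c = ψ u c := by rw [e1, flp_ne _ (Ne.symm hac)]
    have k00 : ψ y a = ψ x a := by rw [e2, flp_ne _ hac]
    refine ⟨fun k => absurd ?_ k, fun k => absurd k0.symm k⟩
    by_cases k : ψ u a = ψ x a
    · have k1 := dd_flp' k
      have k3 := dd_flp' (k.trans k00.symm)
      rw [← e1] at k1 k3
      omega
    · have k1 := dd_flp k
      have k3 := dd_flp (k00 ▸ k : ψ u a ≠ ψ y a)
      rw [← e1] at k1 k3
      omega

lemma hd_update_le (u v : T → Bool) (c : T) :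
    hammingDist (Function.update u c false) (Function.update v c false) ≤ hammingDist u v := by
  refine card_le_card fun t ht => ?_
  simp only [mem_filter, mem_univ, true_and] at ht ⊢
  by_cases h : t = c
  · subst h; simp at ht
  · simpa [h] using ht

lemma hd_update_eq {u v : T → Bool} {c : T} (h : u c = v c) :
    hammingDist (Function.update u c false) (Function.update v c false) = hammingDist u v := by
  simp only [hammingDist]
  congr 1
  ext t
  simp only [mem_filter, mem_univ, true_and]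
  by_cases h' : t = c
  · subst h'; simp [h]
  · simp [h']

omit [Fintype T] in
lemma update_flp (u : T → Bool) (c : T) :
    Function.update (flp u c) c false = Function.update u c false := by
  simp [flp]

lemma Iso.update {U : Set (T → Bool)} (hU : Iso U) (c : T) :
    Iso ((fun v => Function.update v c false) '' U) := by
  rintro _ ⟨u, hu, rfl⟩ _ ⟨w, hw, rfl⟩ hne
  obtain ⟨z, hz, e, he, g1, g2, g3, -⟩ := first_flip hU {e | e ≠ c} _ u hu w hw rfl (by
    by_contra hn
    push Not at hn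
    refine hne (funext fun t => ?_)
    by_cases h : t = c
    · subst h; simp
    · simpa [h] using hn t h)
  have he' : e ≠ c := he
  refine ⟨e, by simpa [he'] using g1, z, hz, funext fun t => ?_⟩
  by_cases h : t = e
  · subst h
    have : Function.update u c false t ≠ w t := by simpa [he'] using g1
    rw [flp_self this]
    simpa [he'] using g2
  · rw [flp_ne _ h]
    by_cases h' : t = c
    · subst h'; simp
    · simpa [h'] using g3 t h' h

lemma Emb.contract {ψ : W → T → Bool} (h : Emb G ψ) (hI : Iso (Set.range ψ)) {x y : W}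
    (hxy : G.Adj x y) {c : T} (hc : ψ x c ≠ ψ y c) :
    ∃ ψ' : _ → T → Bool, Emb (contract G x y) ψ' ∧
      Set.range ψ' = (fun v => Function.update v c false) '' Set.range ψ := by
  let r : W → W → Prop := fun u v => G.Adj u v ∧ Theta G u v x y
  have key : ∀ u v, Function.update (ψ u) c false = Function.update (ψ v) c false →
      Quot.mk r u = Quot.mk r v := by
    intro u v e
    by_cases k : ψ u c = ψ v c
    · have := hd_update_eq k
      rw [e, hammingDist_self] at this
      rw [h.inj (hammingDist_eq_zero.1 this.symm)]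
    · have k1 := hd_update_eq (flp_self k)
      rw [update_flp, e, hammingDist_self] at k1
      have k2 := dd_flp k
      have a : G.Adj u v := (h.adj u v).2 (by omega)
      exact Quot.sound ⟨a, (theta_iff h hI a hxy hc).2 k⟩
  let ψ' : Quot r → T → Bool := Quot.lift (fun u => Function.update (ψ u) c false) (by
    rintro u v ⟨a, t⟩
    rw [eq_flp ((h.adj u v).1 a) ((theta_iff h hI a hxy hc).1 t), update_flp])
  have inj : Function.Injective ψ' := by
    rintro ⟨u⟩ ⟨v⟩ e
    exact key u v e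
  refine ⟨ψ', ⟨inj, ?_⟩, ?_⟩
  · rintro ⟨u⟩ ⟨v⟩
    constructor
    · rintro ⟨hne, a, b, hab, e1, e2⟩
      have k1 : hammingDist (ψ' (Quot.mk r u)) (ψ' (Quot.mk r v)) ≠ 0 := fun k =>
        hne (inj (hammingDist_eq_zero.1 k))
      have k2 := hd_update_le (ψ a) (ψ b) c
      rw [(h.adj a b).1 hab] at k2
      have k3 : hammingDist (ψ' (Quot.mk r a)) (ψ' (Quot.mk r b)) ≤ 1 := k2
      rw [e1, e2] at k3
      exact le_antisymm k3 (Nat.one_le_iff_ne_zero.2 k1)
    · intro k
      refine ⟨fun e => by rw [e] at k; simp at k, ?_⟩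
      change hammingDist (Function.update (ψ u) c false) (Function.update (ψ v) c false) = 1 at k
      by_cases k1 : ψ u c = ψ v c
      · exact ⟨u, v, (h.adj u v).2 (hd_update_eq k1 ▸ k), rfl, rfl⟩
      have k2 := hd_update_eq (flp_self k1)
      rw [update_flp, k] at k2
      have k3 := dd_flp k1
      obtain ⟨e, he, z, hz⟩ := hI _ ⟨u, rfl⟩ _ ⟨v, rfl⟩ (fun e => k1 (by rw [e]))
      have k4 := dd_flp he
      by_cases hec : e = c
      · subst hec
        exact ⟨z, v, (h.adj z v).2 (by rw [hz]; omega), key z u (by rw [hz, update_flp]), rfl⟩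
      · refine ⟨u, z, (h.adj u z).2 (hz ▸ hd_flp _ _), rfl, key z v ?_⟩
        have k5 : ψ z c ≠ ψ v c := by rwa [hz, flp_ne _ (Ne.symm hec)]
        rw [eq_flp (u := ψ z) (v := ψ v) (by rw [hz]; omega) k5, update_flp]
  · ext v
    constructor
    · rintro ⟨⟨u⟩, rfl⟩
      exact ⟨_, ⟨u, rfl⟩, rfl⟩
    · rintro ⟨_, ⟨u, rfl⟩, rfl⟩
      exact ⟨Quot.mk r u, rfl⟩

end Pool.Agent.P.MP_25e9c6_co
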