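import Pool.Agent.P.MP_25e9c6_co.Hex

namespace Pool.Agent.P.MP_25e9c6_co

open Finset

variable {T : Type} [Fintype T] [DecidableEq T] {V : Set (T → Bool)}

/-- the literal of `v` at `e` -/
def pl (v : T → Bool) (e : T) : T × Bool := (e, v e)

omit [Fintype T] [DecidableEq T] in
@[simp] lemma pl_fst (v : T → Bool) (e : T) : (pl v e).1 = e := rfl

omit [Fintype T] [DecidableEq T] in
lemma sat_pl (z v : T → Bool) (e : T) : sat z (pl v e) ↔ z e = v e := Iff.rfl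

omit [Fintype T] [DecidableEq T] in
lemma sat_self (v : T → Bool) (e : T) : sat v (pl v e) := rfl

theorem helly (hV : Good V) (hne : V.Nonempty) (X : T → Bool) (A : Finset T)
    (h2 : ∀ e ∈ A, ∀ f ∈ A, A2 V (pl X e) (pl X f))
    (h3 : ∀ e ∈ A, ∀ f ∈ A, ∀ g ∈ A, ¬ HexL V (pl X e) (pl X f) (pl X g)) :
    ∃ v ∈ V, ∀ e ∈ A, v e = X e := by
  induction A using Finset.strongInduction with
  | H A ih =>
  by_contra hn
  have bb : ∀ a b c : Bool, a ≠ b → (a = c ↔ ¬ b = c) := by decide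
  let Dv : (T → Bool) → Finset T → Prop := fun z B => ∀ c ∈ A, (z c = X c ↔ c ∉ B)
  have d0 : ∀ z ∈ V, ¬ Dv z ∅ := fun z hz h => hn ⟨z, hz, fun e he => (h e he).2 (by simp)⟩
  have d1 : ∀ e ∈ A, ∃ z ∈ V, Dv z {e} := by
    intro e he
    obtain ⟨z, hz, h⟩ := ih (A.erase e) (erase_ssubset he)
      (fun a ha b hb => h2 a (mem_of_mem_erase ha) b (mem_of_mem_erase hb))
      (fun a ha b hb c hc => h3 a (mem_of_mem_erase ha) b (mem_of_mem_erase hb) c
        (mem_of_mem_erase hc))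
    refine ⟨z, hz, fun c hc => ?_⟩
    by_cases hce : c = e
    · subst hce
      simp only [mem_singleton, not_true_eq_false, iff_false]
      intro h'
      refine hn ⟨z, hz, fun a ha => ?_⟩
      by_cases hac : a = c
      · rw [hac, h']
      · exact h a (mem_erase.2 ⟨hac, ha⟩)
    · simp [hce, h c (mem_erase.2 ⟨hce, hc⟩)]
  have ff : ∀ u ∈ V, ∀ w ∈ V, ∀ B C, Dv u B → Dv w C → (∃ a ∈ A, ¬ (a ∈ B ↔ a ∈ C)) →
      ∃ z ∈ V, ∃ e ∈ A, ¬ (e ∈ B ↔ e ∈ C) ∧
        ∀ B', (∀ c, c ∈ B' ↔ (c ∈ B ↔ c ≠ e)) → Dv z B' := by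
    rintro u hu w hw B C hB hC ⟨a, ha, ha'⟩
    obtain ⟨z, hz, e, he, g1, g2, g3, -⟩ := first_flip hV.iso (A : Set T) _ u hu w hw rfl
      ⟨a, ha, by have := hB a ha; have := hC a ha; grind⟩
    have k1 := hB e he
    have k2 := hC e he
    have k3 := bb _ _ (X e) g1
    refine ⟨z, hz, e, he, by grind, fun B' hB' c hc => ?_⟩
    have := g3 c hc
    have := hB c hc
    have := hB' c
    clear ih h2 h3 hn d0 d1 bb hB hC g3 hB'
    grind
  have d2 : ∀ e ∈ A, ∀ f ∈ A, e ≠ f → ∃ z ∈ V, Dv z {e, f} := by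
    intro e he f hf hef
    obtain ⟨u, hu, hu'⟩ := d1 e he
    obtain ⟨w, hw, hw'⟩ := d1 f hf
    obtain ⟨z, hz, c, hc, g1, g2⟩ := ff u hu w hw _ _ hu' hw' ⟨e, he, by simp [hef]⟩
    by_cases hce : c = e
    · exact absurd (g2 ∅ (by intro x; simp [hce])) (d0 z hz)
    · refine ⟨z, hz, g2 _ fun x => ?_⟩
      simp only [mem_singleton, mem_insert] at g1 ⊢
      grind
  have cb : ∀ z ∈ V, ∀ B C, Dv z B → B ⊆ C → z ∈ V ∩ cube ((A \ C : Finset T) : Set T) X := by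
    intro z hz B C h hBC
    refine ⟨hz, fun c hc => ?_⟩
    simp only [coe_sdiff, Set.mem_sdiff, mem_coe] at hc
    exact (h c hc.1).2 fun h' => hc.2 (hBC h')
  have six : ∀ e ∈ A, ∀ f ∈ A, ∀ g ∈ A, e ≠ f → e ≠ g → f ≠ g → ∀ C, {e, f, g} ⊆ C →
      Six (V ∩ cube ((A \ C : Finset T) : Set T) X) (pl X e) (pl X f) (pl X g) := by
    intro e he f hf g hg hef heg hfg C hC
    have mk : ∀ B, B ⊆ {e, f, g} → (∃ z ∈ V, Dv z B) →
        ∃ z ∈ V ∩ cube ((A \ C : Finset T) : Set T) X,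
          (sat z (pl X e) ↔ e ∉ B) ∧ (sat z (pl X f) ↔ f ∉ B) ∧ (sat z (pl X g) ↔ g ∉ B) := by
      rintro B hB ⟨z, hz, h⟩
      exact ⟨z, cb z hz B C h (hB.trans hC), h e he, h f hf, h g hg⟩
    obtain ⟨z1, m1, g1⟩ := mk _ (by simp) (d1 e he)
    obtain ⟨z2, m2, g2⟩ := mk _ (by simp) (d1 f hf)
    obtain ⟨z3, m3, g3⟩ := mk _ (by simp) (d1 g hg)
    obtain ⟨z4, m4, g4⟩ := mk _ (by intro x; simp only [mem_insert, mem_singleton]; grind)
      (d2 f hf g hg hfg)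
    obtain ⟨z5, m5, g5⟩ := mk _ (by intro x; simp only [mem_insert, mem_singleton]; grind)
      (d2 e he g hg heg)
    obtain ⟨z6, m6, g6⟩ := mk _ (by intro x; simp only [mem_insert, mem_singleton]; grind)
      (d2 e he f hf hef)
    simp only [mem_insert, mem_singleton] at g1 g2 g3 g4 g5 g6
    refine ⟨⟨z1, m1, ?_⟩, ⟨z2, m2, ?_⟩, ⟨z3, m3, ?_⟩, ⟨z4, m4, ?_⟩, ⟨z5, m5, ?_⟩, ⟨z6, m6, ?_⟩⟩ <;>
      simp only [sat_ng] <;> grind
  have d3 : ∀ e ∈ A, ∀ f ∈ A, ∀ g ∈ A, e ≠ f → e ≠ g → f ≠ g → ∀ z ∈ V, ¬ Dv z {e, f, g} := by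
    intro e he f hf g hg hef heg hfg z hz h
    obtain ⟨y, ⟨hy, hy'⟩, g1, g2, g3⟩ := hV.noq _ X (pl X e) (pl X f) (pl X g) ⟨hef, heg, hfg⟩
      (six e he f hf g hg hef heg hfg _ Subset.rfl)
      ⟨z, cb z hz _ _ h Subset.rfl, by
        have := h e he; have := h f hf; have := h g hg
        simp only [sat_ng, sat_pl]; simp_all⟩
    refine hn ⟨y, hy, fun c hc => ?_⟩
    have := hy' c
    simp only [coe_sdiff, Set.mem_sdiff, mem_coe, mem_insert, mem_singleton] at this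
    rw [sat_pl] at g1 g2 g3
    grind
  rcases A.eq_empty_or_nonempty with rfl | ⟨e, he⟩
  · obtain ⟨v, hv⟩ := hne
    exact hn ⟨v, hv, by simp⟩
  by_cases c1 : ∃ f ∈ A, ∃ g ∈ A, e ≠ f ∧ e ≠ g ∧ f ≠ g
  swap
  · by_cases c2 : ∃ f ∈ A, e ≠ f
    · obtain ⟨f, hf, hef⟩ := c2
      obtain ⟨v, hv, g1, g2⟩ := h2 e he f hf
      rw [sat_pl] at g1 g2
      exact hn ⟨v, hv, by grind⟩
    · obtain ⟨v, hv, g1, -⟩ := h2 e he e he
      rw [sat_pl] at g1
      exact hn ⟨v, hv, by grind⟩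
  obtain ⟨f, hf, g, hg, hef, heg, hfg⟩ := c1
  by_cases c3 : ∃ h ∈ A, h ≠ e ∧ h ≠ f ∧ h ≠ g
  swap
  · refine h3 e he f hf g hg (helly3 hV ⟨hef, heg, hfg⟩ (h2 e he f hf) (h2 e he g hg)
      (h2 f hf g hg) ?_)
    rintro ⟨v, hv, g1, g2, g3⟩
    rw [sat_pl] at g1 g2 g3
    exact hn ⟨v, hv, by grind⟩
  obtain ⟨h, hh, k1, k2, k3⟩ := c3
  obtain ⟨s1, s2, s3, s4, s5, s6⟩ := six e he f hf g hg hef heg hfg {e, f, g, h}
    (by intro x; simp only [mem_insert, mem_singleton]; grind)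
  obtain ⟨z, hz, z1⟩ := d1 h hh
  obtain ⟨w, ⟨hw, hw'⟩, w1, w2, w3⟩ := hV.noq ((A \ {e, f, g, h} : Finset T) : Set T) X
    (ng (pl X e)) (ng (pl X f)) (ng (pl X g)) ⟨hef, heg, hfg⟩
    (by simp only [Six, ng_ng]; exact ⟨s4, s5, s6, s1, s2, s3⟩)
    ⟨z, cb z hz _ _ z1 (by simp), by
      have := z1 e he; have := z1 f hf; have := z1 g hg
      simp only [ng_ng, sat_pl]
      simp only [mem_singleton] at *
      grind⟩
  simp only [sat_ng, sat_pl] at w1 w2 w3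
  have w4 : ∀ c ∈ A, c ≠ e → c ≠ f → c ≠ g → c ≠ h → w c = X c := by
    intro c hc a1 a2 a3 a4
    apply hw'
    simp [hc, a1, a2, a3, a4]
  by_cases w5 : w h = X h
  · refine d3 e he f hf g hg hef heg hfg w hw fun c hc => ?_
    have := w4 c hc
    simp only [mem_insert, mem_singleton]
    clear * - this w1 w2 w3 w5
    grind
  have w6 : Dv w {e, f, g, h} := by
    intro c hc
    have := w4 c hc
    simp only [mem_insert, mem_singleton]
    clear * - this w1 w2 w3 w5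
    grind
  obtain ⟨u, hu, u1⟩ := d2 e he f hf hef
  obtain ⟨y, hy, c, hc, y1, y2⟩ := ff w hw u hu _ _ w6 u1 ⟨g, hg, by simp [heg.symm, hfg.symm]⟩
  simp only [mem_insert, mem_singleton] at y1 y2
  by_cases hcg : c = g
  · refine d3 e he f hf h hh hef k1.symm k2.symm y hy (y2 _ fun x => ?_)
    simp only [mem_insert, mem_singleton]
    clear * - y1 hcg k1 k2 k3 hef heg hfg
    grind
  · refine d3 e he f hf g hg hef heg hfg y hy (y2 _ fun x => ?_)
    simp only [mem_insert, mem_singleton]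
    clear * - y1 hcg k1 k2 k3 hef heg hfg
    grind

structure IsLine (V : Set (T → Bool)) (S : Finset T) : Prop where
  card : 3 ≤ S.card
  hex : ∀ e ∈ S, ∀ f ∈ S, ∀ g ∈ S, e ≠ f → e ≠ g → f ≠ g → Hex V e f g
  clo : ∀ e ∈ S, ∀ f ∈ S, ∀ g, Hex V e f g → g ∈ S

lemma exists_line (hV : Iso V) {e f g : T} (h : Hex V e f g) :
    ∃ S, IsLine V S ∧ e ∈ S ∧ f ∈ S ∧ g ∈ S := by
  classical
  have s12 := @Hex.swap12 T V
  have s23 := @Hex.swap23 T V
  have tr := @hex_trans T _ _ V hV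
  have hd := h.dis
  let S : Finset T := univ.filter fun x => x = e ∨ x = f ∨ Hex V e f x
  have mem : ∀ x, x ∈ S ↔ x = e ∨ x = f ∨ Hex V e f x := by simp [S]
  have h1 : ∀ x y, Hex V e f x → Hex V e f y → x ≠ y → Hex V e x y ∧ Hex V f x y :=
    fun x y a b c => ⟨tr a b c, tr a.swap12 b.swap12 c⟩
  have h2 : ∀ x y z, Hex V e f x → Hex V e f y → Hex V e f z → x ≠ y → x ≠ z → y ≠ z →
      Hex V x y z := fun x y z a b c d1 d2 d3 =>
    tr (h1 x y a b d1).1.swap12 (h1 x z a c d2).1.swap12 d3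
  have hx : ∀ a ∈ S, ∀ b ∈ S, ∀ c ∈ S, a ≠ b → a ≠ c → b ≠ c → Hex V a b c := by
    intro a ha b hb c hc d1 d2 d3
    rw [mem] at ha hb hc
    rcases ha with rfl | rfl | ha <;> rcases hb with rfl | rfl | hb <;>
      rcases hc with rfl | rfl | hc <;>
      first
        | exact absurd rfl d1
        | exact absurd rfl d2
        | exact absurd rfl d3
        | exact hc
        | exact hb.swap23
        | exact hc.swap12
        | exact hb.swap12.swap23
        | exact ha.swap23.swap12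
        | exact ha.swap12.swap23.swap12
        | exact (h1 _ _ hb hc d3).1
        | exact (h1 _ _ hb hc d3).2
        | exact (h1 _ _ ha hc d2).1.swap12
        | exact (h1 _ _ ha hc d2).2.swap12
        | exact (h1 _ _ ha hb d1).1.swap12.swap23
        | exact (h1 _ _ ha hb d1).2.swap12.swap23
        | exact h2 _ _ _ ha hb hc d1 d2 d3
  refine ⟨S, ⟨?_, hx, ?_⟩, by simp [mem], by simp [mem], by simp [mem, h]⟩
  · have : ({e, f, g} : Finset T) ⊆ S := by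
      intro x
      simp only [mem_insert, mem_singleton, mem]
      rintro (rfl | rfl | rfl) <;> simp [h]
    have h3 : ({e, f, g} : Finset T).card = 3 := card_eq_three.2 ⟨e, f, g, hd.1, hd.2.1, hd.2.2, rfl⟩
    exact h3 ▸ card_le_card this
  · intro a ha b hb c hc
    by_contra hn
    have mv : ∀ a ∈ S, ∀ b ∈ S, ∀ d ∈ S, Hex V a b c → d ≠ a → Hex V a d c := by
      intro a ha b hb d hd' k hda
      by_cases hdb : d = b
      · rwa [hdb]
      · exact tr (hx a ha b hb d hd' k.dis.1 hda.symm (Ne.symm hdb)) k (fun h => hn (h ▸ hd'))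
    have eS : e ∈ S := by simp [mem]
    have fS : f ∈ S := by simp [mem]
    have : Hex V e f c := by
      by_cases hae : e = a
      · subst hae
        exact mv e eS b hb f fS hc hd.1.symm
      · exact mv e eS a ha f fS (mv a ha b hb e eS hc hae).swap12 hd.1.symm
    exact hn ((mem c).2 (Or.inr (Or.inr this)))

omit [Fintype T] in
lemma IsLine.unique {S S' : Finset T} (h : IsLine V S) (h' : IsLine V S') {a b : T} (hab : a ≠ b)
    (a1 : a ∈ S) (b1 : b ∈ S) (a2 : a ∈ S') (b2 : b ∈ S') : S = S' := by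
  have key : ∀ {S S' : Finset T}, IsLine V S → IsLine V S' → a ∈ S → b ∈ S → a ∈ S' → b ∈ S' →
      S ⊆ S' := by
    intro S S' h h' a1 b1 a2 b2 c hc
    by_cases h1 : a = c
    · exact h1 ▸ a2
    by_cases h2 : b = c
    · exact h2 ▸ b2
    exact h'.clo a a2 b b2 c (h.hex a a1 b b1 c hc hab h1 h2)
  exact Subset.antisymm (key h h' a1 b1 a2 b2) (key h' h a2 b2 a1 b1)

end Pool.Agent.P.MP_25e9c6_co
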