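import Pool.Agent.P.MP_25e9c6_co.Comb

namespace Pool.Agent.P.MP_25e9c6_co

open Finset

variable {T : Type} [Fintype T] [DecidableEq T] {V : Set (T → Bool)}

def Hex (V : Set (T → Bool)) (e f g : T) : Prop := ∃ a b c, HexL V (e, a) (f, b) (g, c)

omit [Fintype T] [DecidableEq T] in
lemma HexL.hex {p q r : T × Bool} (h : HexL V p q r) : Hex V p.1 q.1 r.1 := ⟨p.2, q.2, r.2, h⟩

omit [Fintype T] [DecidableEq T] in
lemma Hex.swap12 {e f g : T} (h : Hex V e f g) : Hex V f e g := by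
  obtain ⟨a, b, c, h⟩ := h
  exact ⟨b, a, c, h.swap12⟩

omit [Fintype T] [DecidableEq T] in
lemma Hex.swap23 {e f g : T} (h : Hex V e f g) : Hex V e g f := by
  obtain ⟨a, b, c, h⟩ := h
  exact ⟨a, c, b, h.swap23⟩

omit [Fintype T] [DecidableEq T] in
lemma Hex.dis {e f g : T} (h : Hex V e f g) : e ≠ f ∧ e ≠ g ∧ f ≠ g := by
  obtain ⟨a, b, c, h⟩ := h
  exact h.1

omit [Fintype T] [DecidableEq T] in
lemma lit_cases (e : T) (a b : Bool) : (e, b) = (e, a) ∨ (e, b) = ng (e, a) := by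
  cases a <;> cases b <;> simp [ng]

omit [Fintype T] [DecidableEq T] in
/-- any two literals on two coordinates of a hexagon triple occur together -/
lemma Hex.cross {e f g : T} (h : Hex V e f g) (a b : Bool) : A2 V (e, a) (f, b) := by
  obtain ⟨a', b', c', -, -, -, ⟨v1, h1, g1⟩, ⟨v2, h2, g2⟩, ⟨v3, h3, g3⟩, -, -, ⟨v6, h6, g6⟩⟩ := h
  rcases lit_cases e a' a with k | k <;> rcases lit_cases f b' b with l | l <;> rw [k, l]
  · exact ⟨v3, h3, g3.1, g3.2.1⟩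
  · exact ⟨v2, h2, g2.1, g2.2.1⟩
  · exact ⟨v1, h1, g1.1, g1.2.1⟩
  · exact ⟨v6, h6, g6.1, g6.2.1⟩

omit [Fintype T] [DecidableEq T] in
lemma hexA {p q r s : T × Bool} (h1 : HexL V p q r) (h2 : HexL V p (ng q) s) (hrs : r.1 ≠ s.1) :
    HexL V p r s := by
  have n1 := @h1.no
  have n2 := @h2.no
  obtain ⟨d1, -, -, ⟨v1, m1, g1⟩, ⟨v2, m2, g2⟩, -, ⟨v4, m4, g4⟩, ⟨v5, m5, g5⟩, -⟩ := h1
  obtain ⟨d2, -, -, -, ⟨w2, l2, k2⟩, -, -, ⟨w5, l5, k5⟩, -⟩ := h2
  refine ⟨⟨d1.2.1, d2.2.1, hrs⟩, ?_, ?_, ⟨v1, m1, ?_⟩, ⟨w2, l2, ?_⟩, ⟨v2, m2, ?_⟩, ⟨v4, m4, ?_⟩,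
    ⟨w5, l5, ?_⟩, ⟨v5, m5, ?_⟩⟩
  · rintro ⟨v, hv, g⟩
    have := n1 hv; have := n2 hv
    simp only [sat_ng] at *; grind
  · rintro ⟨v, hv, g⟩
    have := n1 hv; have := n2 hv
    simp only [sat_ng] at *; grind
  · have := n2 m1; simp only [sat_ng] at *; grind
  · have := n1 l2; simp only [sat_ng] at *; grind
  · have := n2 m2; simp only [sat_ng] at *; grind
  · have := n2 m4; simp only [sat_ng] at *; grind
  · have := n1 l5; simp only [sat_ng] at *; grind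
  · have := n2 m5; simp only [sat_ng] at *; grind

/-- auxiliary statement for `hexB` -/
lemma hexB_aux (hV : Iso V) {p q r s : T × Bool} (h1 : HexL V p q r) (h2 : HexL V p q s)
    (hrs : r.1 ≠ s.1) :
    (∃ z ∈ V, sat z p ∧ ¬ sat z q ∧ ¬ sat z r ∧ ¬ sat z s) ∧
    (∃ z ∈ V, sat z p ∧ ¬ sat z q ∧ sat z r ∧ sat z s) ∧
    (∃ z ∈ V, sat z p ∧ ¬ sat z q ∧ (sat z r ↔ ¬ sat z s)) := by
  have n1 := @h1.no
  have n2 := @h2.no
  obtain ⟨d1, -, -, -, ⟨v2, m2, g2⟩, ⟨v3, m3, g3⟩, -, -, ⟨v6, m6, g6⟩⟩ := h1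
  obtain ⟨d2, -⟩ := h2
  have k3 := n2 m3
  have k6 := n2 m6
  simp only [sat_ng] at g2 g3 g6
  have a1 : ∃ z ∈ V, sat z p ∧ ¬ sat z q ∧ ¬ sat z r ∧ ¬ sat z s := by
    obtain ⟨z, hz, z1, z2⟩ := step3 hV m3 m2 (p := q) (q := ng r) (r := ng s)
      ⟨d1.2.2, d2.2.2, hrs⟩ (by grind) (by simp only [sat_ng]; grind)
      (by simp only [sat_ng]; grind) (by grind)
    have := z1 p
    have := n1 hz; have := n2 hz
    exact ⟨z, hz, by simp only [sat_ng] at *; grind⟩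
  have a2 : ∃ z ∈ V, sat z p ∧ ¬ sat z q ∧ sat z r ∧ sat z s := by
    obtain ⟨z, hz, z1, z2⟩ := step3 hV m6 m2 (p := ng p) (q := r) (r := s)
      ⟨d1.2.1, d2.2.1, hrs⟩ (by simp only [sat_ng]; grind) (by grind)
      (by grind) (by simp only [sat_ng]; grind)
    have := z1 q
    have := n1 hz; have := n2 hz
    exact ⟨z, hz, by simp only [sat_ng] at *; grind⟩
  refine ⟨a1, a2, ?_⟩
  obtain ⟨x, hx, x1⟩ := a1
  obtain ⟨y, hy, y1⟩ := a2
  obtain ⟨z, hz, z1, z2⟩ := step2 hV hy hx (p := r) (q := s) hrs (by grind) (by grind) (by grind)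
  have := z1 p
  have := z1 q
  exact ⟨z, hz, by grind⟩

lemma hexB (hV : Iso V) {p q r s : T × Bool} (h1 : HexL V p q r) (h2 : HexL V p q s)
    (hrs : r.1 ≠ s.1) : HexL V p (ng r) s ∨ HexL V p r (ng s) := by
  obtain ⟨⟨x1, m1, g1⟩, ⟨x2, m2, g2⟩, ⟨x3, m3, g3⟩⟩ := hexB_aux hV h1 h2 hrs
  obtain ⟨⟨y1, l1, k1⟩, ⟨y2, l2, k2⟩, ⟨y3, l3, k3⟩⟩ := hexB_aux hV h1.swap12 h2.swap12 hrs
  have n1 := @h1.no
  have n2 := @h2.no
  have d1 := h1.1
  have d2 := h2.1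
  have key : ∀ x ∈ V, ∀ y ∈ V, sat x p → ¬ sat x q → ¬ sat y p → sat y q →
      (sat x r ↔ ¬ sat x s) → (sat y r ↔ ¬ sat y s) → (sat x r ↔ ¬ sat y r) := by
    intro x hx y hy a1 a2 a3 a4 a5 a6
    obtain ⟨z, hz, z1, z2⟩ := step2 hV hx hy (p := p) (q := ng q) d1.1 a1
      (by simpa using a2) (Or.inl a3)
    have := z1 r
    have := z1 s
    have := n1 hz; have := n2 hz
    simp only [sat_ng] at *
    grind
  have kk := key x3 m3 y3 l3 (by grind) (by grind) (by grind) (by grind) (by grind) (by grind)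
  by_cases hc : sat x3 r
  · left
    refine ⟨⟨d1.2.1, d2.2.1, hrs⟩, ?_, ?_, ⟨y3, l3, ?_⟩, ⟨x2, m2, ?_⟩, ⟨x1, m1, ?_⟩,
      ⟨x3, m3, ?_⟩, ⟨y1, l1, ?_⟩, ⟨y2, l2, ?_⟩⟩
    · rintro ⟨v, hv, g⟩
      have := n1 hv; have := n2 hv; have := key v hv y3 l3
      simp only [sat_ng] at *; grind
    · rintro ⟨v, hv, g⟩
      have := n1 hv; have := n2 hv; have := key x3 m3 v hv
      simp only [sat_ng] at *; grind
    all_goals simp only [sat_ng]; grind
  · right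
    refine ⟨⟨d1.2.1, d2.2.1, hrs⟩, ?_, ?_, ⟨y3, l3, ?_⟩, ⟨x1, m1, ?_⟩, ⟨x2, m2, ?_⟩,
      ⟨x3, m3, ?_⟩, ⟨y2, l2, ?_⟩, ⟨y1, l1, ?_⟩⟩
    · rintro ⟨v, hv, g⟩
      have := n1 hv; have := n2 hv; have := key v hv y3 l3
      simp only [sat_ng] at *; grind
    · rintro ⟨v, hv, g⟩
      have := n1 hv; have := n2 hv; have := key x3 m3 v hv
      simp only [sat_ng] at *; grind
    all_goals simp only [sat_ng]; grind

lemma hex_trans (hV : Iso V) {e f g h : T} (h1 : Hex V e f g) (h2 : Hex V e f h) (hgh : g ≠ h) :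
    Hex V e g h := by
  obtain ⟨a, b, c, h1⟩ := h1
  obtain ⟨a', b', c', h2⟩ := h2
  have key : ∀ b' c', HexL V (e, a) (f, b') (h, c') → Hex V e g h := by
    intro b' c' h2
    rcases lit_cases f b b' with k | k <;> rw [k] at h2
    · rcases hexB hV h1 h2 hgh with k | k
      · exact k.hex
      · exact k.hex
    · exact (hexA h1 h2 hgh).hex
  rcases lit_cases e a a' with k | k <;> rw [k] at h2
  · exact key _ _ h2
  · have := h2.neg
    rw [ng_ng] at this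
    exact key _ _ this

/-- a convex part in which two coordinates of a hexagon cross contains the whole hexagon -/
lemma hex_sub {W : Set (T → Bool)} (hW : Iso W) (hWV : W ⊆ V) {p q r : T × Bool}
    (h : HexL V p q r) (a1 : A2 W p q) (a2 : A2 W p (ng q)) (a3 : A2 W (ng p) q)
    (a4 : A2 W (ng p) (ng q)) : Six W p q r := by
  have n := fun v (hv : v ∈ W) => h.no (hWV hv)
  obtain ⟨x1, m1, g1⟩ := a1
  obtain ⟨x2, m2, g2⟩ := a2
  obtain ⟨x3, m3, g3⟩ := a3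
  obtain ⟨x4, m4, g4⟩ := a4
  have k1 := n x1 m1
  have k4 := n x4 m4
  obtain ⟨d1, d2, d3⟩ := h.1
  simp only [sat_ng] at g2 g3 g4
  refine ⟨?_, ?_, ⟨x1, m1, by simp only [sat_ng]; grind⟩, ?_, ?_,
    ⟨x4, m4, by simp only [sat_ng]; grind⟩⟩
  · obtain ⟨z, hz, z1, z2⟩ := step2 hW m4 m3 (p := ng q) (q := r) d3
      (by simp only [sat_ng]; grind) (by grind) (by simp only [sat_ng]; grind)
    have := z1 p; have := n z hz
    exact ⟨z, hz, by simp only [sat_ng] at *; grind⟩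
  · obtain ⟨z, hz, z1, z2⟩ := step2 hW m4 m2 (p := ng p) (q := r) d2
      (by simp only [sat_ng]; grind) (by grind) (by simp only [sat_ng]; grind)
    have := z1 q; have := n z hz
    exact ⟨z, hz, by simp only [sat_ng] at *; grind⟩
  · obtain ⟨z, hz, z1, z2⟩ := step2 hW m1 m2 (p := q) (q := ng r) d3
      (by grind) (by simp only [sat_ng]; grind) (by grind)
    have := z1 p; have := n z hz
    exact ⟨z, hz, by simp only [sat_ng] at *; grind⟩
  · obtain ⟨z, hz, z1, z2⟩ := step2 hW m1 m3 (p := p) (q := ng r) d2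
      (by grind) (by simp only [sat_ng]; grind) (by grind)
    have := z1 q; have := n z hz
    exact ⟨z, hz, by simp only [sat_ng] at *; grind⟩

/-- the half of `V` given by a literal -/
def half (V : Set (T → Bool)) (t : T × Bool) : Set (T → Bool) := V ∩ cube {t.1} (fun _ => t.2)

omit [Fintype T] [DecidableEq T] in
lemma mem_half {t : T × Bool} {v : T → Bool} : v ∈ half V t ↔ v ∈ V ∧ sat v t := by
  simp [half, cube, sat]

/-- `hex_sub` inside a half -/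
lemma hex_half (hV : Iso V) {p q r t : T × Bool} (h : HexL V p q r) (a1 : A3 V p q t)
    (a2 : A3 V p (ng q) t) (a3 : A3 V (ng p) q t) (a4 : A3 V (ng p) (ng q) t) :
    Six (half V t) p q r := by
  have cv : ∀ p q, A3 V p q t → A2 (half V t) p q := by
    rintro p q ⟨v, hv, g1, g2, g3⟩
    exact ⟨v, mem_half.2 ⟨hv, g3⟩, g1, g2⟩
  exact hex_sub (hV.inter _ _) Set.inter_subset_left h (cv _ _ a1) (cv _ _ a2) (cv _ _ a3)
    (cv _ _ a4)

/-- two hexagons through `F` cannot have `F, E, G` shattered -/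
lemma no_shatter (hV : Good V) {F E E' G G' : T × Bool} (h1 : HexL V F E E') (h2 : HexL V F G G')
    (hd : Dis E E' G) (sh : ∀ a b c, A3 V (F.1, a) (E.1, b) (G.1, c)) : False := by
  have n1 := @h1.no
  have n2 := @h2.no
  have sh' : ∀ p q r : T × Bool, p.1 = F.1 → q.1 = E.1 → r.1 = G.1 → A3 V p q r := by
    rintro ⟨p, a⟩ ⟨q, b⟩ ⟨r, c⟩ rfl rfl rfl
    exact sh a b c
  have s1 : ∀ t : T × Bool, t.1 = G.1 → Six (half V t) F E E' := fun t ht =>
    hex_half hV.iso h1 (sh' _ _ _ rfl rfl ht) (sh' _ _ _ rfl rfl ht) (sh' _ _ _ rfl rfl ht)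
      (sh' _ _ _ rfl rfl ht)
  have s2 : ∀ t : T × Bool, t.1 = E.1 → Six (half V t) F G G' := fun t ht =>
    hex_half hV.iso h2 (sh' F t G rfl ht rfl).swap23 (sh' F t (ng G) rfl ht rfl).swap23
      (sh' (ng F) t G rfl ht rfl).swap23 (sh' (ng F) t (ng G) rfl ht rfl).swap23
  have ex : ∀ {t p q r : T × Bool}, A3 (half V t) p q r →
      ∃ v ∈ V, sat v t ∧ sat v p ∧ sat v q ∧ sat v r := by
    rintro t p q r ⟨v, hv, g⟩
    exact ⟨v, (mem_half.1 hv).1, (mem_half.1 hv).2, g⟩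
  have w3 : ∀ {t p q r : T × Bool}, A3 (half V t) p q r → A3 V p r t := by
    intro t p q r h
    obtain ⟨v, hv, g1, g2, g3, g4⟩ := ex h
    exact ⟨v, hv, g2, g4, g1⟩
  -- hexagon 1 inside the half `G'`
  have s3 : Six (half V G') F E E' := by
    have a := s2 E rfl
    have b := s2 (ng E) rfl
    exact hex_half hV.iso h1 (w3 a.2.1).swap23 (w3 b.2.1).swap23 (w3 a.1).swap23 (w3 b.1).swap23
  -- hexagon 2 inside the half `ng E'`
  have s4 : Six (half V (ng E')) F G G' := by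
    have a := s1 G rfl
    have b := s1 (ng G) rfl
    exact hex_half hV.iso h2 (w3 a.2.2.1).swap23 (w3 b.2.2.1).swap23 (w3 a.2.2.2.2.1).swap23
      (w3 b.2.2.2.2.1).swap23
  obtain ⟨x1, m1, g1⟩ := ex (s2 (ng E) rfl).1
  obtain ⟨x2, m2, g2⟩ := ex s4.1
  have k1 := n1 m1
  have k2 := n1 m2
  simp only [sat_ng] at g1 g2
  obtain ⟨z, hz, z1, z2⟩ := step2 hV.iso m1 m2 (p := ng E) (q := E') hd.1
    (by simp only [sat_ng]; grind) (by grind) (by grind)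
  have z3 := z1 F
  have z4 := z1 G
  have z5 := z1 G'
  have z6 := n1 hz
  obtain ⟨y1, l1, j1⟩ := ex (s1 (ng G) rfl).1
  obtain ⟨y2, l2, j2⟩ := ex (s1 (ng G) rfl).2.2.2.2.1
  obtain ⟨y3, l3, j3⟩ := ex (s1 (ng G) rfl).2.2.2.2.2
  obtain ⟨y4, l4, j4⟩ := ex s3.2.2.2.1
  have i1 := n2 l1
  have i2 := n2 l2
  have i3 := n2 l3
  have i4 := n2 l4
  simp only [sat_ng] at z2 j1 j2 j3 j4
  have := hV.noq {G'.1} (fun _ => G'.2) (ng E) (ng E') G hd
    ⟨⟨x2, mem_half.2 ⟨m2, by grind⟩, by simp only [sat_ng]; grind⟩,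
     ⟨x1, mem_half.2 ⟨m1, by grind⟩, by simp only [sat_ng]; grind⟩,
     ⟨y4, mem_half.2 ⟨l4, by grind⟩, by simp only [sat_ng]; grind⟩,
     ⟨y3, mem_half.2 ⟨l3, by grind⟩, by simp only [sat_ng]; grind⟩,
     ⟨y2, mem_half.2 ⟨l2, by grind⟩, by simp only [sat_ng]; grind⟩,
     ⟨z, mem_half.2 ⟨hz, by grind⟩, by simp only [sat_ng]; grind⟩⟩
    ⟨y1, mem_half.2 ⟨l1, by grind⟩, by simp only [sat_ng]; grind⟩
  obtain ⟨v, hv, g⟩ := ex this
  have := n1 hv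
  have := n2 hv
  simp only [sat_ng] at g
  grind

/-- elements of different lines through `F` do not cross -/
lemma no_cross (hV : Good V) {F E E' G G' : T × Bool} (h1 : HexL V F E E') (h2 : HexL V F G G')
    (hd : Dis E E' G) (hn : ¬ Hex V F.1 E.1 G.1) (cr : ∀ b c, A2 V (E.1, b) (G.1, c)) : False := by
  refine no_shatter hV h1 h2 hd fun a b c => ?_
  by_contra h
  exact hn (helly3 hV (p := (F.1, a)) (q := (E.1, b)) (r := (G.1, c)) ⟨h1.1.1, h2.1.1, hd.2.1⟩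
    (h1.hex.cross a b) (h2.hex.cross a c) (cr b c) h).hex

end Pool.Agent.P.MP_25e9c6_co
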