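import Pool.Agent.P.MP_25e9c6_co.Mid

namespace Pool.Agent.P.MP_25e9c6_co

open Finset

variable {T : Type} [Fintype T] [DecidableEq T] {V : Set (T → Bool)}

def val (x : T → ℝ) (p : T × Bool) : ℝ := if p.2 then x p.1 else -x p.1

omit [Fintype T] [DecidableEq T] in
@[simp] lemma val_ng (x : T → ℝ) (p : T × Bool) : val x (ng p) = -val x p := by
  obtain ⟨e, a⟩ := p
  cases a <;> simp [val, ng]

omit [Fintype T] [DecidableEq T] in
lemma val_add (x y : T → ℝ) (p : T × Bool) : val (x + y) p = val x p + val y p := by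
  obtain ⟨e, a⟩ := p
  cases a <;> simp [val]
  ring

omit [Fintype T] [DecidableEq T] in
lemma val_smul (c : ℝ) (x : T → ℝ) (p : T × Bool) : val (c • x) p = c * val x p := by
  obtain ⟨e, a⟩ := p
  cases a <;> simp [val]

omit [Fintype T] [DecidableEq T] in
lemma lit_cases' {p q : T × Bool} (h : q.1 = p.1) : q = p ∨ q = ng p := by
  obtain ⟨e, a⟩ := p
  obtain ⟨f, b⟩ := q
  obtain rfl : f = e := h
  exact lit_cases f a b

omit [Fintype T] [DecidableEq T] in
lemma hexL_unique {p q r p' q' r' : T × Bool} (h : HexL V p q r) (h' : HexL V p' q' r')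
    (e1 : p'.1 = p.1) (e2 : q'.1 = q.1) (e3 : r'.1 = r.1) :
    (p' = p ∧ q' = q ∧ r' = r) ∨ (p' = ng p ∧ q' = ng q ∧ r' = ng r) := by
  obtain ⟨-, -, -, a, b, c, d, e, f⟩ := h
  have n := h'.2.1
  rcases lit_cases' e1 with rfl | rfl <;> rcases lit_cases' e2 with rfl | rfl <;>
    rcases lit_cases' e3 with rfl | rfl <;> first | exact absurd ‹_› n | simp

lemma geodesic (hV : Iso V) : ∀ n, ∀ u ∈ V, ∀ w ∈ V, hammingDist u w = n →
    ∃ τ : T → ℕ, (∀ e f, u e ≠ w e → u f ≠ w f → τ e = τ f → e = f) ∧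
      ∀ t, ∃ z ∈ V, ∀ e, (z e = u e ↔ u e = w e ∨ t ≤ τ e) := by
  intro n
  induction n with
  | zero =>
    intro u hu w _ h
    rw [hammingDist_eq_zero] at h
    exact ⟨fun _ => 0, fun e _ he => absurd (by rw [h]) he,
      fun _ => ⟨u, hu, fun e => by simp [h]⟩⟩
  | succ n ih =>
    intro u hu w hw h
    obtain ⟨e, he, hf⟩ := hV u hu w hw (by
      rintro rfl
      simp at h)
    obtain ⟨τ, h1, h2⟩ := ih _ hf w hw (by have := dd_flp he; omega)
    refine ⟨fun c => if c = e then 0 else τ c + 1, ?_, ?_⟩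
    · intro a b ha hb hab
      by_cases ae : a = e <;> by_cases be : b = e
      · rw [ae, be]
      · simp [ae, be] at hab
      · simp [ae, be] at hab
      · simp only [ae, be, if_false, add_left_inj] at hab
        exact h1 a b (by rwa [flp_ne u ae]) (by rwa [flp_ne u be]) hab
    · intro t
      cases t with
      | zero => exact ⟨u, hu, by simp⟩
      | succ t =>
        obtain ⟨z, hz, z1⟩ := h2 t
        refine ⟨z, hz, fun c => ?_⟩
        by_cases ce : c = e
        · subst ce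
          have := (z1 c).2 (Or.inl (flp_self he))
          rw [flp_self he] at this
          simp [this, he, he.symm]
        · have := z1 c
          rw [flp_ne u ce] at this
          simp [ce, this]

lemma line_rank (hV : Good V) {b : T → Bool} (hb : b ∈ V) {S : Finset T} (hS : IsLine V S) :
    ∃ ρ : T → ℕ, (∀ e ∈ S, ∀ f ∈ S, ρ e = ρ f → e = f) ∧ (∀ e ∈ S, ρ e < S.card) ∧
      (∀ i < S.card, ∃ e ∈ S, ρ e = i) ∧
      ∀ e ∈ S, ∀ f ∈ S, ∀ g ∈ S, ρ e < ρ f → ρ f < ρ g → Mid V b e f g := by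
  have h3 : ∀ e ∈ S, ∀ f ∈ S, e ≠ f → ∃ g, Hex V e f g := by
    intro e he f hf hef
    obtain ⟨g, hg, hg'⟩ : ∃ g ∈ S, g ∉ ({e, f} : Finset T) := by
      apply exists_mem_notMem_of_card_lt_card
      have := hS.card
      have := card_le_two (a := e) (b := f)
      omega
    simp only [mem_insert, mem_singleton, not_or] at hg'
    exact ⟨g, hS.hex e he f hf g hg hef (Ne.symm hg'.1) (Ne.symm hg'.2)⟩
  obtain ⟨w, hw, w1⟩ := helly hV ⟨b, hb⟩ (fun e => !b e) S (by
    intro e he f hf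
    by_cases hef : e = f
    · subst hef
      obtain ⟨f, hf, hfe⟩ := exists_mem_ne (s := S) (by have := hS.card; omega) e
      obtain ⟨g, hg⟩ := h3 e he f hf hfe.symm
      obtain ⟨z, hz, z1, -⟩ := hg.cross (!b e) true
      exact ⟨z, hz, z1, z1⟩
    · obtain ⟨g, hg⟩ := h3 e he f hf hef
      exact hg.cross _ _) (by
    intro e _ f _ g _ h
    exact h.2.2.1 ⟨b, hb, by simp [sat, ng, pl]⟩)
  have w2 : ∀ e ∈ S, b e ≠ w e := fun e he => by simp [w1 e he]
  obtain ⟨τ, t1, t2⟩ := geodesic hV.iso _ b hb w hw rfl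
  let ρ : T → ℕ := fun e => (S.filter fun g => τ g < τ e).card
  have r1 : ∀ e ∈ S, ∀ f, τ e < τ f → ρ e < ρ f := by
    intro e he f h
    apply card_lt_card
    refine ⟨fun g hg => ?_, fun h' => ?_⟩
    · simp only [mem_filter] at hg ⊢
      exact ⟨hg.1, hg.2.trans h⟩
    · have := h' (mem_filter.2 ⟨he, h⟩)
      simp at this
  have r2 : ∀ e ∈ S, ∀ f ∈ S, ρ e = ρ f → e = f := by
    intro e he f hf h
    rcases lt_trichotomy (τ e) (τ f) with k | k | k
    · have := r1 e he f k; omega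
    · exact t1 e f (w2 e he) (w2 f hf) k
    · have := r1 f hf e k; omega
  have r3 : ∀ e ∈ S, ∀ f ∈ S, ρ e < ρ f → τ e < τ f := by
    intro e he f hf h
    rcases lt_trichotomy (τ e) (τ f) with k | k | k
    · exact k
    · rw [t1 e f (w2 e he) (w2 f hf) k] at h; omega
    · have := r1 f hf e k; omega
  have r4 : ∀ e ∈ S, ρ e < S.card := by
    intro e he
    apply card_lt_card
    refine ⟨filter_subset _ _, fun h' => ?_⟩
    have := h' he
    simp at this
  refine ⟨ρ, r2, r4, fun i hi => ?_, fun e he f hf g hg h1 h2 => ?_⟩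
  · obtain ⟨a, ha, h⟩ := surj_on_of_inj_on_of_card_le (s := S) (t := range S.card)
      (fun a _ => ρ a) (fun a ha => mem_range.2 (r4 a ha)) (fun a b ha hb h => r2 a ha b hb h)
      (by simp) i (mem_range.2 hi)
    exact ⟨a, ha, h.symm⟩
  · have k1 := r3 e he f hf h1
    have k2 := r3 f hf g hg h2
    obtain ⟨a1, a2, a3, h⟩ := hS.hex e he f hf g hg (by rintro rfl; omega) (by rintro rfl; omega)
      (by rintro rfl; omega)
    obtain ⟨z1, m1, g1⟩ := t2 (τ f)
    obtain ⟨z2, m2, g2⟩ := t2 (τ g)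
    have n0 := h.no hb
    have n1 := h.no m1
    have n2 := h.no m2
    have p1 : ¬ sat z1 (pl b e) ∧ sat z1 (pl b f) ∧ sat z1 (pl b g) := by
      simp only [sat_pl, g1, w2 e he, w2 f hf, w2 g hg, false_or]
      omega
    have p2 : ¬ sat z2 (pl b e) ∧ ¬ sat z2 (pl b f) ∧ sat z2 (pl b g) := by
      simp only [sat_pl, g2, w2 e he, w2 f hf, w2 g hg, false_or]
      omega
    have s1 := sat_self b e
    have s2 := sat_self b f
    have s3 := sat_self b g
    have hn := h.neg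
    rcases lit_cases' (p := pl b e) (q := (e, a1)) rfl with l1 | l1 <;>
      rcases lit_cases' (p := pl b f) (q := (f, a2)) rfl with l2 | l2 <;>
      rcases lit_cases' (p := pl b g) (q := (g, a3)) rfl with l3 | l3 <;>
      rw [l1, l2, l3] at h hn n0 n1 n2 <;> (try simp only [sat_ng, ng_ng] at hn n0 n1 n2) <;>
      first
        | exact h
        | exact hn
        | (exfalso; clear * - n0 n1 n2 p1 p2 s1 s2 s3; grind)

lemma not_mid (hV : Iso V) {v : T → Bool} (hv : v ∈ V) {S : Finset T} {a b : T}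
    (h : ∀ F ∈ S, F ≠ a → F ≠ b → Mid V v a F b) : ∀ c ∈ S, ∀ c' ∈ S, ¬ Mid V v c a c' := by
  intro c hc c' hc' hm
  have d : c ≠ a ∧ c ≠ c' ∧ a ≠ c' := hm.1
  have n := @HexL.no _ _ _ _ _ hm
  by_cases h1 : c = b
  · subst h1
    obtain ⟨-, -, -, -, -, -, -, -, ⟨z, hz, g⟩⟩ := h c' hc' d.2.2.symm d.2.1.symm
    have := n hz
    simp only [sat_ng] at *
    grind
  by_cases h2 : c' = b
  · subst h2
    obtain ⟨-, -, -, -, -, -, -, -, ⟨z, hz, g⟩⟩ := h c hc d.1 d.2.1
    have := n hz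
    simp only [sat_ng] at *
    grind
  have n2 := @HexL.no _ _ _ _ _ (h c' hc' d.2.2.symm h2)
  obtain ⟨-, -, -, -, -, -, -, -, ⟨z, hz, g⟩⟩ := h c hc d.1 h1
  have k := n hz
  simp only [sat_ng, ng_ng] at k g
  obtain ⟨y, hy, y1, y2⟩ := step2 hV hz hv (p := ng (pl v a)) (q := ng (pl v c')) d.2.2
    (by simp only [sat_ng]; grind) (by simp only [sat_ng]; grind)
    (by simp [sat_self])
  have := y1 (pl v b)
  have := y1 (pl v c)
  have := sat_self v b
  have := sat_self v c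
  have := n hy
  have := n2 hy
  simp only [sat_ng] at *
  grind

/-- determinant of the two normal vectors with ranks `i` and `j` -/
def nn1 (k i : ℕ) : ℝ := if i + 1 = k then 0 else 1
def nn2 (k i : ℕ) : ℝ := if i + 1 = k then 1 else i
def DD (k i j : ℕ) : ℝ := nn1 k i * nn2 k j - nn2 k i * nn1 k j

lemma DD_ge {k i j : ℕ} (h : i < j) (hj : j < k) : 1 ≤ DD k i j := by
  have h1 : ¬ i + 1 = k := by omega
  by_cases h2 : j + 1 = k
  · simp [DD, nn1, nn2, h1, h2]
  · simp only [DD, nn1, nn2, h1, h2, if_false]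
    have : (i : ℝ) + 1 ≤ j := by exact_mod_cast h
    linarith

lemma DD_succ {k i : ℕ} (hj : i + 1 < k) : DD k i (i + 1) = 1 := by
  have h1 : ¬ i + 1 = k := by omega
  by_cases h2 : i + 1 + 1 = k
  · simp [DD, nn1, nn2, h1, h2]
  · simp [DD, nn1, nn2, h1, h2]

lemma DD_last {k j : ℕ} (h : j + 1 = k) (h0 : 0 < j) : DD k 0 j = 1 := by
  have h1 : ¬ 0 + 1 = k := by omega
  simp only [DD, nn1, nn2, h1, h, if_false, if_true]
  simp

theorem line_real (hV : Good V) (hne : V.Nonempty) {S : Finset T} (hS : IsLine V S) :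
    ∃ L : Submodule ℝ (T → ℝ),
      (∀ x ∈ L, ∀ p q r : T × Bool, p.1 ∈ S → q.1 ∈ S → r.1 ∈ S →
        0 < val x p → 0 < val x q → 0 < val x r → ¬ HexL V p q r) ∧
      ∀ v ∈ V, ∃ a ∈ S, ∃ b ∈ S, ∃ c1 c2 : T → ℝ,
        (∀ F ∈ S, F ≠ a → F ≠ b → Mid V v a F b ∧ 1 ≤ c1 F ∧ 1 ≤ c2 F) ∧
        ∀ x : T → ℝ, (∀ F ∈ S, F ≠ a → F ≠ b →
          val x (pl v F) = c1 F * val x (pl v a) + c2 F * val x (pl v b)) → x ∈ L := by
  obtain ⟨o, ho⟩ := hne
  obtain ⟨ρ, r1, r2, r3, r4⟩ := line_rank hV ho hS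
  set k := S.card with hk
  have k3 : 3 ≤ k := hS.card
  let L : Submodule ℝ (T → ℝ) :=
    { carrier := {x | ∃ u1 u2 : ℝ, ∀ e ∈ S, val x (pl o e) = nn1 k (ρ e) * u2 - nn2 k (ρ e) * u1}
      add_mem' := by
        rintro x y ⟨u1, u2, h⟩ ⟨w1, w2, h'⟩
        exact ⟨u1 + w1, u2 + w2, fun e he => by rw [val_add, h e he, h' e he]; ring⟩
      zero_mem' := ⟨0, 0, fun e _ => by simp [val]⟩
      smul_mem' := by
        rintro c x ⟨u1, u2, h⟩
        exact ⟨c * u1, c * u2, fun e he => by rw [val_smul, h e he]; ring⟩ }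
  have inL : ∀ a ∈ S, ∀ b ∈ S, DD k (ρ a) (ρ b) = 1 → ∀ x : T → ℝ, (∀ F ∈ S, F ≠ a → F ≠ b →
      val x (pl o F) = DD k (ρ F) (ρ b) * val x (pl o a) + DD k (ρ a) (ρ F) * val x (pl o b)) →
      x ∈ L := by
    intro a ha b hb hD x hx
    refine ⟨val x (pl o a) * nn1 k (ρ b) - val x (pl o b) * nn1 k (ρ a),
      val x (pl o a) * nn2 k (ρ b) - val x (pl o b) * nn2 k (ρ a), fun e he => ?_⟩
    simp only [DD] at hD hx
    by_cases ea : e = a
    · rw [ea]; linear_combination (-val x (pl o a)) * hD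
    by_cases eb : e = b
    · rw [eb]; linear_combination (-val x (pl o b)) * hD
    rw [hx e he ea eb]
    ring
  refine ⟨L, ?_, ?_⟩
  · rintro x ⟨u1, u2, hx⟩
    have aux : ∀ p q r : T × Bool, p.1 ∈ S → q.1 ∈ S → r.1 ∈ S → ρ p.1 < ρ q.1 → ρ q.1 < ρ r.1 →
        0 < val x p → 0 < val x q → 0 < val x r → ¬ HexL V p q r := by
      intro p q r hp hq hr h1 h2 v1 v2 v3 h
      have d1 := DD_ge h1 (r2 _ hq)
      have d2 := DD_ge h2 (r2 _ hr)
      have d3 := DD_ge (h1.trans h2) (r2 _ hr)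
      have cr : DD k (ρ p.1) (ρ r.1) * val x (pl o q.1) =
          DD k (ρ q.1) (ρ r.1) * val x (pl o p.1) + DD k (ρ p.1) (ρ q.1) * val x (pl o r.1) := by
        rw [hx _ hp, hx _ hq, hx _ hr]
        simp only [DD]
        ring
      rcases hexL_unique (r4 _ hp _ hq _ hr h1 h2) h rfl rfl rfl with ⟨e1, e2, e3⟩ | ⟨e1, e2, e3⟩
      · rw [e1] at v1; rw [e2, val_ng] at v2; rw [e3] at v3
        nlinarith
      · rw [e1, val_ng] at v1; rw [e2, ng_ng] at v2; rw [e3, val_ng] at v3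
        nlinarith
    intro p q r hp hq hr v1 v2 v3 h
    have d1 : ρ p.1 ≠ ρ q.1 := fun g => h.1.1 (r1 _ hp _ hq g)
    have d2 : ρ p.1 ≠ ρ r.1 := fun g => h.1.2.1 (r1 _ hp _ hr g)
    have d3 : ρ q.1 ≠ ρ r.1 := fun g => h.1.2.2 (r1 _ hq _ hr g)
    rcases lt_or_gt_of_ne d1 with l1 | l1 <;> rcases lt_or_gt_of_ne d2 with l2 | l2 <;>
      rcases lt_or_gt_of_ne d3 with l3 | l3
    · exact aux p q r hp hq hr l1 l3 v1 v2 v3 h
    · exact aux p r q hp hr hq l2 l3 v1 v3 v2 h.swap23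
    · omega
    · exact aux r p q hr hp hq l2 l1 v3 v1 v2 h.swap23.swap12
    · exact aux q p r hq hp hr l1 l2 v2 v1 v3 h.swap12
    · omega
    · exact aux q r p hq hr hp l3 l2 v2 v3 v1 h.swap12.swap23
    · exact aux r q p hr hq hp l3 l1 v3 v2 v1 h.swap12.swap23.swap12
  intro v hv
  have pv : ∀ e, (sat v (pl o e) ∧ pl v e = pl o e) ∨ (¬ sat v (pl o e) ∧ pl v e = ng (pl o e)) := by
    intro e
    simp only [pl, ng, sat]
    cases v e <;> cases o e <;> simp
  by_cases hc : ∃ a ∈ S, ∃ b ∈ S, ρ b = ρ a + 1 ∧ ¬ (sat v (pl o a) ↔ sat v (pl o b))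
  · obtain ⟨a, ha, b, hb, hab, hs⟩ := hc
    have hD : DD k (ρ a) (ρ b) = 1 := by rw [hab]; exact DD_succ (hab ▸ r2 b hb)
    have cs : ∀ F ∈ S, F ≠ a → F ≠ b → (ρ F < ρ a ∧ Mid V o F a b) ∨
        (¬ ρ F < ρ a ∧ ρ b < ρ F ∧ Mid V o a b F) := by
      intro F hF h1 h2
      have d1 : ρ F ≠ ρ a := fun g => h1 (r1 _ hF _ ha g)
      have d2 : ρ F ≠ ρ b := fun g => h2 (r1 _ hF _ hb g)
      by_cases l : ρ F < ρ a
      · exact Or.inl ⟨l, r4 _ hF _ ha _ hb l (by omega)⟩
      · exact Or.inr ⟨l, by omega, r4 _ ha _ hb _ hF (by omega) (by omega)⟩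
    refine ⟨a, ha, b, hb, fun F => if ρ F < ρ a then DD k (ρ F) (ρ b) else DD k (ρ b) (ρ F),
      fun F => if ρ F < ρ a then DD k (ρ F) (ρ a) else DD k (ρ a) (ρ F), ?_, ?_⟩
    · intro F hF h1 h2
      rcases cs F hF h1 h2 with ⟨l, m⟩ | ⟨l, l', m⟩
      · simp only [l, if_true]
        refine ⟨?_, DD_ge (by omega) (r2 _ hb), DD_ge l (r2 _ ha)⟩
        have n := HexL.no m hv
        have m1 := m.swap12
        have m2 := m1.neg
        simp only [sat_ng, ng_ng] at n m2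
        unfold Mid
        rcases pv a with ⟨s1, e1⟩ | ⟨s1, e1⟩ <;> rcases pv b with ⟨s2, e2⟩ | ⟨s2, e2⟩ <;>
          rcases pv F with ⟨s3, e3⟩ | ⟨s3, e3⟩ <;> rw [e1, e2, e3] <;>
          first
            | exact m2
            | (rw [ng_ng]; exact m1)
            | (exfalso; clear * - n hs s1 s2 s3; grind)
      · simp only [l, if_false]
        refine ⟨?_, DD_ge l' (r2 _ hF), DD_ge (by omega) (r2 _ hF)⟩
        have n := HexL.no m hv
        have m1 := m.swap23
        have m2 := m1.neg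
        simp only [sat_ng, ng_ng] at n m2
        unfold Mid
        rcases pv a with ⟨s1, e1⟩ | ⟨s1, e1⟩ <;> rcases pv b with ⟨s2, e2⟩ | ⟨s2, e2⟩ <;>
          rcases pv F with ⟨s3, e3⟩ | ⟨s3, e3⟩ <;> rw [e1, e2, e3] <;>
          first
            | exact m2
            | (rw [ng_ng]; exact m1)
            | (exfalso; clear * - n hs s1 s2 s3; grind)
    · intro x hx
      refine inL a ha b hb hD x fun F hF h1 h2 => ?_
      have := hx F hF h1 h2
      rcases cs F hF h1 h2 with ⟨l, m⟩ | ⟨l, l', m⟩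
      all_goals
        have n := HexL.no m hv
        simp only [sat_ng] at n
        simp only [l, if_true, if_false] at this
        rcases pv a with ⟨s1, e1⟩ | ⟨s1, e1⟩ <;> rcases pv b with ⟨s2, e2⟩ | ⟨s2, e2⟩ <;>
          rcases pv F with ⟨s3, e3⟩ | ⟨s3, e3⟩ <;> rw [e1, e2, e3] at this <;>
          first
            | (exfalso; clear * - n hs s1 s2 s3; grind)
            | (simp only [val_ng, DD] at this ⊢; linarith)
  · obtain ⟨a, ha, a0⟩ := r3 0 (by omega)
    obtain ⟨b, hb, b0⟩ := r3 (k - 1) (by omega)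
    have same : ∀ i, ∀ F ∈ S, ρ F = i → (sat v (pl o a) ↔ sat v (pl o F)) := by
      intro i
      induction i with
      | zero =>
        intro F hF h
        rw [r1 F hF a ha (by omega)]
      | succ i ih =>
        intro F hF h
        obtain ⟨G, hG, g⟩ := r3 i (by have := r2 F hF; omega)
        have := ih G hG g
        by_contra hn
        exact hc ⟨G, hG, F, hF, by omega, by clear * - this hn; grind⟩
    have hD : DD k (ρ a) (ρ b) = 1 := by rw [a0, b0]; exact DD_last (by omega) (by omega)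
    have cs : ∀ F ∈ S, F ≠ a → F ≠ b → ρ a < ρ F ∧ ρ F < ρ b := by
      intro F hF h1 h2
      have d1 : ρ F ≠ ρ a := fun g => h1 (r1 _ hF _ ha g)
      have d2 : ρ F ≠ ρ b := fun g => h2 (r1 _ hF _ hb g)
      have := r2 F hF
      omega
    refine ⟨a, ha, b, hb, fun F => DD k (ρ F) (ρ b), fun F => DD k (ρ a) (ρ F), ?_, ?_⟩
    · intro F hF h1 h2
      obtain ⟨l1, l2⟩ := cs F hF h1 h2
      refine ⟨?_, DD_ge l2 (r2 _ hb), DD_ge l1 (r2 _ hF)⟩
      have m1 := r4 _ ha _ hF _ hb l1 l2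
      have m2 := m1.neg
      have q1 := same _ F hF rfl
      have q2 := same _ b hb rfl
      unfold Mid
      rcases pv a with ⟨s1, e1⟩ | ⟨s1, e1⟩ <;> rcases pv b with ⟨s2, e2⟩ | ⟨s2, e2⟩ <;>
        rcases pv F with ⟨s3, e3⟩ | ⟨s3, e3⟩ <;> rw [e1, e2, e3] <;>
        first
          | exact m1
          | exact m2
          | (exfalso; clear * - q1 q2 s1 s2 s3; grind)
    · intro x hx
      refine inL a ha b hb hD x fun F hF h1 h2 => ?_
      have := hx F hF h1 h2
      have q1 := same _ F hF rfl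
      have q2 := same _ b hb rfl
      rcases pv a with ⟨s1, e1⟩ | ⟨s1, e1⟩ <;> rcases pv b with ⟨s2, e2⟩ | ⟨s2, e2⟩ <;>
        rcases pv F with ⟨s3, e3⟩ | ⟨s3, e3⟩ <;> rw [e1, e2, e3] at this <;>
        first
          | (exfalso; clear * - q1 q2 s1 s2 s3; grind)
          | exact this
          | (simp only [val_ng] at this ⊢; linarith)

end Pool.Agent.P.MP_25e9c6_co
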