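import Pool.Agent.P.MP_25e9c6_co.Tope

namespace Pool.Agent.P.MP_25e9c6_co

open Finset

variable {T : Type} [Fintype T] [DecidableEq T] {d : ℕ}

/-- coordinate functionals together with the pulled back coordinates -/
noncomputable def fn (p : Fin d → T → ℝ) : Fin d ⊕ T → (Fin d → ℝ) →ₗ[ℝ] ℝ
  | .inl i => LinearMap.proj i
  | .inr e => ∑ i, p i e • LinearMap.proj i

def ext1 (d : ℕ) (v : T → Bool) : Fin d ⊕ T → Bool := Sum.elim (fun _ => true) v

omit [Fintype T] [DecidableEq T] in
lemma fn_inr (p : Fin d → T → ℝ) (e : T) (l : Fin d → ℝ) :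
    fn p (.inr e) l = (∑ i, l i • p i) e := by
  simp [fn, Finset.sum_apply, mul_comm]

omit [Fintype T] [DecidableEq T] in
lemma fn_single (p : Fin d → T → ℝ) (e : T) (i : Fin d) :
    fn p (.inr e) (Pi.single i 1) = p i e := by
  rw [fn_inr, Finset.sum_apply, sum_eq_single i] <;> simp +contextual

omit [Fintype T] [DecidableEq T] in
lemma sg_inr (p : Fin d → T → ℝ) (X : Fin d ⊕ T → Bool) (e : T) (l : Fin d → ℝ) :
    sg (fn p) X (.inr e) l = val (∑ i, l i • p i) (pl (fun t => X (.inr t)) e) := by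
  by_cases h : X (.inr e) = true <;> simp [sg, val, pl, h, fn_inr]

omit [DecidableEq T] in
lemma hd_ext1 (u v : T → Bool) : hammingDist (ext1 d u) (ext1 d v) = hammingDist u v := by
  rw [hammingDist, hammingDist, card_filter, card_filter, Fintype.sum_sum_type]
  simp only [ext1, Sum.elim_inl, Sum.elim_inr, ne_eq, not_true_eq_false, if_false, sum_const_zero,
    zero_add]
  exact sum_congr rfl fun _ _ => by congr

lemma fn_inj {ψ : Fin d → T → Bool} (hI : Iso (Set.range ψ)) (hn : ∀ e, ∃ u v, ψ u e ≠ ψ v e)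
    {p : Fin d → T → ℝ} (hp : ∀ i e, 0 < val (p i) (pl (ψ i) e)) :
    Function.Injective fun j => LinearMap.ker (fn p j) := by
  have p0 : ∀ i e, p i e ≠ 0 := by
    intro i e h
    have := hp i e
    simp [val, pl, h] at this
  have c1 : ∀ i e, LinearMap.ker (fn p (.inl i)) ≠ LinearMap.ker (fn p (.inr e)) := by
    intro i e h
    obtain ⟨u, v, huv⟩ := hn e
    have : ∃ j, j ≠ i := by
      by_contra k
      push Not at k
      exact huv (by rw [k u, k v])
    obtain ⟨j, hj⟩ := this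
    have m : Pi.single j 1 ∈ LinearMap.ker (fn p (.inl i)) := by
      simp [fn, Ne.symm hj]
    rw [h, LinearMap.mem_ker, fn_single] at m
    exact p0 _ _ m
  have c2 : ∀ e e' u z, ψ u e ≠ ψ z e → ψ u e' = ψ z e' →
      LinearMap.ker (fn p (.inr e)) ≠ LinearMap.ker (fn p (.inr e')) := by
    intro e e' u z h1 h2 h
    have m : p z e • Pi.single u 1 - p u e • Pi.single z 1 ∈ LinearMap.ker (fn p (.inr e)) := by
      rw [LinearMap.mem_ker, map_sub, map_smul, map_smul, fn_single, fn_single]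
      simp [mul_comm]
    rw [h, LinearMap.mem_ker, map_sub, map_smul, map_smul, fn_single, fn_single] at m
    have a1 := hp u e
    have a2 := hp z e
    have a3 := hp u e'
    have a4 := hp z e'
    simp only [smul_eq_mul] at m
    rcases Bool.eq_false_or_eq_true (ψ u e) with b1 | b1 <;>
    rcases Bool.eq_false_or_eq_true (ψ z e) with b2 | b2 <;>
    rcases Bool.eq_false_or_eq_true (ψ u e') with b3 | b3 <;>
    simp [val, pl, ← h2, b1, b2, b3] at a1 a2 a3 a4 h1 <;> nlinarith
  rintro (i | e) (j | e') h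
  · by_contra k
    have k' : i ≠ j := fun h => k (h ▸ rfl)
    have m : Pi.single j 1 ∈ LinearMap.ker (fn p (.inl i)) := by
      simp [fn, k']
    have h' : LinearMap.ker (fn p (.inl i)) = LinearMap.ker (fn p (.inl j)) := h
    rw [h'] at m
    simp [fn] at m
  · exact absurd h (c1 i e')
  · exact absurd h.symm (c1 j e)
  · by_contra k
    have k' : e ≠ e' := fun h => k (h ▸ rfl)
    obtain ⟨u, v, huv⟩ := hn e
    obtain ⟨_, ⟨z, rfl⟩, c, hc, g1, g2, g3, -⟩ := first_flip hI {e, e'} _ _ ⟨u, rfl⟩ _ ⟨v, rfl⟩ rfl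
      ⟨e, by simp, huv⟩
    rcases hc with rfl | rfl
    · exact c2 c e' u z (g2 ▸ g1) (g3 e' (by simp) k'.symm).symm h
    · exact c2 c e u z (g2 ▸ g1) (g3 e (by simp) k').symm h.symm

omit [Fintype T] [DecidableEq T] in
lemma fn_ne {ψ : Fin d → T → Bool} [Nonempty (Fin d)]
    {p : Fin d → T → ℝ} (hp : ∀ i e, 0 < val (p i) (pl (ψ i) e)) (j) : fn p j ≠ 0 := by
  intro h
  cases j with
  | inl i =>
    have := LinearMap.congr_fun h (Pi.single i 1)
    simp [fn] at this
  | inr e =>
    have i : Fin d := Classical.arbitrary _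
    have := LinearMap.congr_fun h (Pi.single i 1)
    rw [fn_single] at this
    have k := hp i e
    simp only [LinearMap.zero_apply] at this
    simp [val, pl, this] at k

omit [DecidableEq T] in
lemma cell_ne {ψ : Fin d → T → Bool} {p : Fin d → T → ℝ}
    (hp : ∀ i e, 0 < val (p i) (pl (ψ i) e)) (u : Fin d) :
    (cell (fn p) (ext1 d (ψ u))).Nonempty := by
  have : ∀ᶠ M : ℝ in Filter.atTop, ∀ e,
      0 < M * val (p u) (pl (ψ u) e) + ∑ i, val (p i) (pl (ψ u) e) := by
    rw [Filter.eventually_all]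
    intro e
    exact (Filter.tendsto_atTop_add_const_right _ _
      (Filter.tendsto_id.atTop_mul_const (hp u e))).eventually_gt_atTop 0
  obtain ⟨M, h1, h2⟩ := (this.and (Filter.eventually_ge_atTop 0)).exists
  refine ⟨fun i => (if i = u then M else 0) + 1, ?_⟩
  rintro (i | e)
  · simp only [sg, ext1, Sum.elim_inl, if_true, fn, LinearMap.proj_apply]
    split_ifs <;> linarith
  · rw [sg_inr, val_sum]
    simp only [add_mul, sum_add_distrib, one_mul, ite_mul, zero_mul, sum_ite_eq', mem_univ, if_true]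
    exact h1 e

theorem main {W : Type} [Finite W] (G : SimpleGraph W) (hG : Hypercellular G) :
    ∃ (d : ℕ) (𝒜 : Finset (Submodule ℝ (Fin d → ℝ))), (∀ H ∈ 𝒜, Module.finrank ℝ H + 1 = d) ∧
      ∃ S : Set (regions 𝒜), IsConvexIn (topeGraph 𝒜) S ∧
        Nonempty (SimpleGraph.Iso G ((topeGraph 𝒜).induce S)) := by
  classical
  obtain ⟨⟨hc, n, φ0, h0⟩, hq⟩ := hG
  let T := {e : Fin n // ∃ u v, φ0 u e ≠ φ0 v e}
  let φ : W → T → Bool := fun u e => φ0 u e.1
  have hφ : ∀ u v, G.dist u v = hammingDist (φ u) (φ v) := by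
    intro u v
    rw [h0]
    symm
    refine card_bij (fun e _ => e.1) (fun e he => ?_) (fun _ _ _ _ h => Subtype.ext h) ?_
    · simpa using he
    · intro e he
      simp only [mem_filter, mem_univ, true_and] at he
      exact ⟨⟨e, u, v, he⟩, by simpa using he, rfl⟩
  obtain ⟨he, hI⟩ := emb_of_dist hc hφ
  have hV := good_of he hI hq
  obtain ⟨d, ⟨q⟩⟩ := Finite.exists_equiv_fin W
  have : Nonempty (Fin d) := ⟨q hc.nonempty.some⟩
  have hr : Set.range (fun i => φ (q.symm i)) = Set.range φ := q.symm.surjective.range_comp φ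
  obtain ⟨p, p1, p2⟩ := exists_cone hV (fun i => φ (q.symm i)) fun i => ⟨_, rfl⟩
  have inj := fn_inj (hr ▸ hI) (fun e => by
    obtain ⟨u, v, h⟩ := e.2
    exact ⟨q u, q v, by simpa using h⟩) p1
  obtain ⟨σ, s1, s2⟩ := tope (fn p) inj (univ.image fun j => LinearMap.ker (fn p j)) (by simp)
  have e1 : Set.range σ ∩ cube (Set.range Sum.inl) (fun _ => true) =
      Set.range fun u => ext1 d (φ u) := by
    ext X
    constructor
    · rintro ⟨h1, h2⟩
      obtain ⟨l, hl⟩ := (s2 X).1 h1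
      obtain ⟨u, hu⟩ := p2 l (fun i => by
        have := hl (.inl i)
        simp only [sg, h2 _ ⟨i, rfl⟩, if_true, fn, LinearMap.proj_apply] at this
        exact this.le) (fun t => X (.inr t)) fun e => by
          rw [← sg_inr]
          exact hl _
      refine ⟨u, funext ?_⟩
      rintro (i | e)
      · exact (h2 _ ⟨i, rfl⟩).symm
      · exact congrFun hu e
    · rintro ⟨u, rfl⟩
      refine ⟨(s2 _).2 ?_, by rintro _ ⟨i, rfl⟩; rfl⟩
      simpa using cell_ne p1 (q u)
  obtain ⟨e2, e3⟩ := emb_of_dist hc (ψ := fun u => ext1 d (φ u)) fun u v => by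
    rw [hd_ext1, hφ]
  refine ⟨d, _, ?_, _, s1.convex (Set.range Sum.inl) (fun _ => true) (e1 ▸ e3),
    e2.iso (s1.induce _) ?_⟩
  · intro H hH
    obtain ⟨j, -, rfl⟩ := mem_image.1 hH
    simpa using Module.Dual.finrank_ker_add_one_of_ne_zero (fn_ne p1 j)
  · rw [← e1]
    ext v
    constructor
    · rintro ⟨⟨u, rfl⟩, hu⟩
      exact ⟨⟨u, hu⟩, rfl⟩
    · rintro ⟨u, rfl⟩
      exact ⟨⟨u.1, rfl⟩, u.2⟩

end Pool.Agent.P.MP_25e9c6_co
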