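import Pool.Agent.P.MP_25e9c6_co.Helly

namespace Pool.Agent.P.MP_25e9c6_co

open Finset

variable {T : Type} [Fintype T] [DecidableEq T] {V : Set (T → Bool)}

def Mid (V : Set (T → Bool)) (v : T → Bool) (a F b : T) : Prop :=
  HexL V (pl v a) (ng (pl v F)) (pl v b)

def Sep (V : Set (T → Bool)) (v : T → Bool) (E F : T) : Prop :=
  E ≠ F ∧ A1 V (ng (pl v F)) ∧ ¬ A2 V (pl v E) (ng (pl v F))

omit [Fintype T] [DecidableEq T] in
lemma Hex.cross' {p q : T × Bool} {g : T} (h : Hex V p.1 q.1 g) : A2 V p q := h.cross p.2 q.2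

omit [Fintype T] [DecidableEq T] in
lemma A2.symm {p q : T × Bool} (h : A2 V p q) : A2 V q p := by
  obtain ⟨v, hv, a, b⟩ := h
  exact ⟨v, hv, b, a⟩

lemma nc_of_lines (hV : Good V) {S S' : Finset T} (hS : IsLine V S) (hS' : IsLine V S')
    (hne : S ≠ S') {x E' G' : T} {E G : T × Bool} (x1 : x ∈ S) (x2 : x ∈ S') (e1 : E.1 ∈ S)
    (e2 : E' ∈ S) (g1 : G.1 ∈ S') (h1 : Hex V x E.1 E') (h2 : Hex V x G.1 G') :
    ¬ A2 V E G ∨ ¬ A2 V E (ng G) ∨ ¬ A2 V (ng E) G ∨ ¬ A2 V (ng E) (ng G) := by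
  have hG : G.1 ∉ S := fun h => hne (hS.unique hS' h2.dis.1 x1 h x2 g1)
  by_contra hn
  push Not at hn
  have cr : ∀ b c, A2 V (E.1, b) (G.1, c) := by
    intro b c
    rcases lit_cases E.1 E.2 b with k | k <;> rcases lit_cases G.1 G.2 c with l | l <;> rw [k, l]
    exacts [hn.1, hn.2.1, hn.2.2.1, hn.2.2.2]
  have hh : ¬ Hex V x E.1 G.1 := fun h => hG (hS.clo x x1 _ e1 _ h)
  have hd : E.1 ≠ E' ∧ E.1 ≠ G.1 ∧ E' ≠ G.1 :=
    ⟨h1.dis.2.2, fun h => hG (h ▸ e1), fun h => hG (h ▸ e2)⟩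
  obtain ⟨a, b, c, h1⟩ := h1
  obtain ⟨a', b', c', h2⟩ := h2
  rcases lit_cases x a a' with k | k <;> rw [k] at h2
  · exact no_cross hV h1 h2 hd hh cr
  · have := h2.neg
    rw [ng_ng] at this
    exact no_cross hV h1 this hd hh cr

lemma mid_unique (hV : Good V) {v : T → Bool} (hv : v ∈ V) {S S' : Finset T} (hS : IsLine V S)
    (hS' : IsLine V S') {F a b a' b' : T} (f1 : F ∈ S) (f2 : F ∈ S') (a1 : a ∈ S) (b1 : b ∈ S)
    (a2 : a' ∈ S') (b2 : b' ∈ S') (h1 : Mid V v a F b) (h2 : Mid V v a' F b') : S = S' := by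
  by_contra hne
  have x1 : Hex V F a b := h1.swap12.hex
  have x2 : Hex V F a' b' := h2.swap12.hex
  have n1 := @HexL.no _ _ _ _ _ h1
  have n2 := @HexL.no _ _ _ _ _ h2
  obtain ⟨-, -, -, -, -, ⟨y1, m1, g1⟩, ⟨y2, m2, g2⟩, ⟨z, hz, gz⟩, ⟨y3, m3, g3⟩⟩ := h1
  have aux : ∀ G G', G ∈ S' → Hex V F G G' → ¬ sat z (pl v G) → False := by
    intro G G' hG hx hzG
    have c1 := nc_of_lines hV hS hS' hne (E := pl v a) (G := pl v G) f1 f2 a1 b1 hG x1 hx
    have c2 := nc_of_lines hV hS hS' hne (E := pl v b) (G := pl v G) f1 f2 b1 a1 hG x1.swap23 hx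
    obtain ⟨u1, l1, j1⟩ := hx.cross' (p := pl v F) (q := ng (pl v G))
    obtain ⟨u2, l2, j2⟩ := hx.cross' (p := ng (pl v F)) (q := pl v G)
    have k1 := n1 l1
    have k2 := n1 l2
    simp only [A2, not_exists, not_and, sat_ng] at c1 c2 j1 j2 k1 k2 g1 g2 g3 gz
    have s1 := sat_self v a
    have s2 := sat_self v b
    have s3 := sat_self v G
    clear * - c1 c2 j1 j2 k1 k2 g1 g2 g3 gz s1 s2 s3 hv hz l1 l2 m1 m2 m3 hzG
    grind
  have := n2 hz
  simp only [sat_ng] at this gz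
  by_cases h : sat z (pl v a')
  · exact aux b' a' b2 x2.swap23 (by clear * - this gz h; grind)
  · exact aux a' b' a2 x2 h

lemma sep_mid (hV : Good V) {v : T → Bool} {E F a b : T} (hs : Sep V v E F)
    (h : Mid V v a F b) : Sep V v E a ∨ Sep V v E b := by
  have x1 : Hex V a F b := h.hex
  have e1 : E ≠ a := by
    rintro rfl
    exact hs.2.2 (x1.cross' (p := pl v E) (q := ng (pl v F)))
  have e2 : E ≠ b := by
    rintro rfl
    exact hs.2.2 (x1.swap23.swap12.swap23.cross' (p := pl v E) (q := ng (pl v F)))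
  obtain ⟨u, hu, u1, u2⟩ := x1.swap23.cross' (p := ng (pl v a)) (q := ng (pl v b))
  by_contra hn
  simp only [Sep, not_or, not_and, not_not] at hn
  have k := helly3 hV (p := pl v E) (q := ng (pl v a)) (r := ng (pl v b)) ⟨e1, e2, x1.dis.2.1⟩
    (hn.1 e1 ⟨u, hu, u1⟩) (hn.2 e2 ⟨u, hu, u2⟩) ⟨u, hu, u1, u2⟩ (by
      rintro ⟨z, hz, g⟩
      have := HexL.no h hz
      exact hs.2.2 ⟨z, hz, by simp only [sat_ng] at *; grind⟩)
  have k2 : Hex V a E F := hex_trans hV.iso k.hex.swap12.swap23 x1.swap23 hs.1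
  exact hs.2.2 (k2.swap12.swap23.cross' (p := pl v E) (q := ng (pl v F)))

noncomputable def phi (V : Set (T → Bool)) (v : T → Bool) (F : T) : ℕ :=
  sInf {n | ∃ w ∈ V, ¬ sat w (pl v F) ∧ hammingDist w v = n}

omit [DecidableEq T] in
lemma phi_le {v w : T → Bool} {F : T} (hw : w ∈ V) (h : ¬ sat w (pl v F)) :
    phi V v F ≤ hammingDist w v := Nat.sInf_le ⟨w, hw, h, rfl⟩

lemma phi_spec (hV : Iso V) {v : T → Bool} (hv : v ∈ V) {F : T} (h : A1 V (ng (pl v F))) :
    ∃ w ∈ V, ¬ sat w (pl v F) ∧ hammingDist w v = phi V v F ∧ flp w F ∈ V ∧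
      hammingDist (flp w F) v + 1 = phi V v F := by
  obtain ⟨u, hu, u1⟩ := h
  obtain ⟨w, hw, w1, w2⟩ := Nat.sInf_mem (s := {n | ∃ w ∈ V, ¬ sat w (pl v F) ∧
    hammingDist w v = n}) ⟨_, u, hu, by simpa using u1, rfl⟩
  have w3 : hammingDist w v = phi V v F := w2
  obtain ⟨e, he, hf⟩ := hV w hw v hv (fun h => w1 (h ▸ sat_self v F))
  have k := dd_flp he
  have : e = F := by
    by_contra hne
    have := phi_le (v := v) (F := F) hf (by rwa [sat_pl, flp_ne w (Ne.symm hne)])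
    omega
  subst this
  exact ⟨w, hw, w1, w3, hf, by omega⟩

lemma phi_sep (hV : Iso V) {v : T → Bool} (hv : v ∈ V) {E F : T} (h : Sep V v E F) :
    phi V v E < phi V v F := by
  obtain ⟨w, hw, w1, -, w3, w4⟩ := phi_spec hV hv h.2.1
  have := phi_le (v := v) (F := E) w3 (by
    rw [sat_pl, flp_ne w h.1]
    exact fun g => h.2.2 ⟨w, hw, g, by simpa using w1⟩)
  omega

lemma phi_mid (hV : Good V) {v : T → Bool} (hv : v ∈ V) {S : Finset T} (hS : IsLine V S)
    {a F b : T} (a1 : a ∈ S) (f1 : F ∈ S) (b1 : b ∈ S) (h : Mid V v a F b)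
    (ext : ∀ c ∈ S, ∀ c' ∈ S, ¬ Mid V v c a c') : phi V v a < phi V v F := by
  have x1 : Hex V a F b := h.hex
  have n1 := @HexL.no _ _ _ _ _ h
  obtain ⟨d1, d2, d3⟩ := x1.dis
  obtain ⟨w, hw, w1, w2, w3, w4⟩ := phi_spec hV.iso hv (F := F) (by
    obtain ⟨u, hu, -, u2⟩ := x1.cross' (p := pl v a) (q := ng (pl v F))
    exact ⟨u, hu, u2⟩)
  by_cases wa : sat w (pl v a)
  swap
  · have := phi_le (v := v) (F := a) w3 (by rwa [sat_pl, flp_ne w d1])
    omega
  have wb : ¬ sat w (pl v b) := by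
    have := n1 hw
    simp only [sat_ng] at this
    grind
  let A : Finset T := univ.filter fun c => w c = v c ∨ c = F ∨ c = b
  have mem : ∀ c, c ∈ A ↔ sat w (pl v c) ∨ c = F ∨ c = b := by simp [A, sat_pl]
  have pa : pl (flp v a) a = ng (pl v a) := by simp [pl, ng, flp]
  have pc : ∀ c, c ≠ a → pl (flp v a) c = pl v c := fun c hc => by simp [pl, flp_ne v hc]
  have p2 : ∀ c ∈ A, c ≠ a → A2 V (ng (pl v a)) (pl v c) := by
    intro c hc hca
    by_cases hcS : c ∈ S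
    · by_cases hcF : c = F
      · exact hcF ▸ x1.cross' (p := ng (pl v a)) (q := pl v F)
      · exact (hS.hex a a1 c hcS F f1 hca.symm d1 hcF).cross' (p := ng (pl v a)) (q := pl v c)
    by_contra hn
    have cF : c ≠ F := fun h => hcS (h ▸ f1)
    have cb : c ≠ b := fun h => hcS (h ▸ b1)
    have wc : sat w (pl v c) := by simpa [cF, cb] using (mem c).1 hc
    have k := helly3 hV (p := pl v c) (q := pl v b) (r := ng (pl v F)) ⟨cb, cF, d3.symm⟩
      ⟨v, hv, rfl, rfl⟩ ⟨w, hw, wc, by simpa using w1⟩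
      (x1.swap23.swap12.swap23.cross' (p := pl v b) (q := ng (pl v F))) (by
        rintro ⟨z, hz, g⟩
        have := n1 hz
        exact hn ⟨z, hz, by simp only [sat_ng] at *; clear * - this g; grind⟩)
    exact hcS (hS.clo b b1 F f1 c k.hex.swap12.swap23)
  have p3 : ∀ c ∈ A, ∀ c' ∈ A, ¬ Mid V v c a c' := by
    intro c hc c' hc' hm
    have x2 : Hex V a c c' := hm.swap12.hex
    obtain ⟨S', hS', a2, c2, c2'⟩ := exists_line hV.iso x2
    have hne : S ≠ S' := by
      rintro rfl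
      exact ext c c2 c' c2' hm
    have aux : ∀ c c', c ∈ A → c ∈ S' → Hex V a c c' →
        ((∀ z ∈ V, ¬ sat z (pl v c) → sat z (pl v F)) ∨
          ∀ z ∈ V, ¬ sat z (pl v c) → ¬ sat z (pl v F)) ∧
        ((∀ z ∈ V, ¬ sat z (pl v c) → sat z (pl v b)) ∨
          ∀ z ∈ V, ¬ sat z (pl v c) → ¬ sat z (pl v b)) := by
      intro c c' hc c2 x2
      have hcS : c ∉ S := fun h => hne (hS.unique hS' x2.dis.1 a1 h a2 c2)
      have cF : c ≠ F := fun h => hcS (h ▸ f1)
      have cb : c ≠ b := fun h => hcS (h ▸ b1)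
      have wc : sat w (pl v c) := by simpa [cF, cb] using (mem c).1 hc
      have c1 := nc_of_lines hV hS hS' hne (E := pl v F) (G := pl v c) a1 a2 f1 b1 c2 x1 x2
      have c3 := nc_of_lines hV hS hS' hne (E := pl v b) (G := pl v c) a1 a2 b1 f1 c2 x1.swap23 x2
      simp only [A2, not_exists, not_and, sat_ng] at c1 c3
      have s1 := sat_self v F
      have s2 := sat_self v b
      have s3 := sat_self v c
      clear * - c1 c3 s1 s2 s3 hv hw w1 wb wc
      grind
    have k1 := aux c c' hc c2 x2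
    have k2 := aux c' c hc' c2' x2.swap23
    obtain ⟨-, -, -, ⟨y1, m1, g1⟩, -, -, -, ⟨y2, m2, g2⟩, ⟨y3, m3, g3⟩⟩ := h
    have i1 := HexL.no hm m1
    have i2 := HexL.no hm m2
    have i3 := HexL.no hm m3
    simp only [sat_ng] at g1 g2 g3 i1 i2 i3
    clear * - k1 k2 m1 m2 m3 g1 g2 g3 i1 i2 i3
    grind
  obtain ⟨u, hu, u1⟩ := helly hV ⟨v, hv⟩ (flp v a) A (by
    intro e he f hf
    by_cases ea : e = a <;> by_cases fa : f = a
    · obtain ⟨z, hz, z1, -⟩ := x1.cross' (p := ng (pl v a)) (q := pl v F)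
      rw [ea, fa, pa]
      exact ⟨z, hz, z1, z1⟩
    · rw [ea, pa, pc f fa]
      exact p2 f hf fa
    · rw [fa, pa, pc e ea]
      exact (p2 e he ea).symm
    · rw [pc e ea, pc f fa]
      exact ⟨v, hv, rfl, rfl⟩) (by
    intro e he f hf g hg hx
    have dd : e ≠ f ∧ e ≠ g ∧ f ≠ g := hx.1
    by_cases ea : e = a
    · subst ea
      rw [pa, pc f dd.1.symm, pc g dd.2.1.symm] at hx
      exact p3 f hf g hg hx.swap12
    by_cases fa : f = a
    · subst fa
      rw [pa, pc e ea, pc g dd.2.2.symm] at hx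
      exact p3 e he g hg hx
    by_cases ga : g = a
    · subst ga
      rw [pa, pc e ea, pc f fa] at hx
      exact p3 e he f hf hx.swap23
    rw [pc e ea, pc f fa, pc g ga] at hx
    exact hx.2.1 ⟨v, hv, rfl, rfl, rfl⟩)
  have ua : ¬ sat u (pl v a) := by
    have := u1 a ((mem a).2 (Or.inl wa))
    rw [← sat_ng, ← pa]
    exact this
  have k := phi_le hu ua
  have sub : (univ.filter fun c => u c ≠ v c) ⊆
      insert a (((univ.filter fun c => w c ≠ v c).erase F).erase b) := by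
    intro c hc
    simp only [mem_filter, mem_univ, true_and, mem_insert, mem_erase] at hc ⊢
    by_cases ca : c = a
    · exact Or.inl ca
    · have := u1 c
      rw [mem, flp_ne v ca, sat_pl] at this
      clear * - this hc
      grind
  have c1 := (card_le_card sub).trans (card_insert_le _ _)
  have mF : F ∈ univ.filter fun c => w c ≠ v c := by simpa [sat_pl] using w1
  have mb : b ∈ (univ.filter fun c => w c ≠ v c).erase F := by
    simpa [sat_pl, d3.symm] using wb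
  have c2 := card_erase_add_one mF
  have c3 := card_erase_add_one mb
  simp only [hammingDist] at k w2
  omega

end Pool.Agent.P.MP_25e9c6_co
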