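import Pool.Agent.P.MP_25e9c6_co.Emb

namespace Pool.Agent.P.MP_25e9c6_co

open Finset

variable {T : Type} [Fintype T] [DecidableEq T] {W : Type} {G : SimpleGraph W}

def zer (C : Finset T) (v : T → Bool) : T → Bool := fun t => if t ∈ C then false else v t

lemma minor_step {W' : Type} {H : SimpleGraph W'} {ψ : W' → T → Bool} (hm : PcMinor G W' H)
    (h : Emb H ψ) (hI : Iso (Set.range ψ)) (c : T) :
    ∃ (W'' : Type) (H' : SimpleGraph W'') (ψ' : W'' → T → Bool), PcMinor G W'' H' ∧ Emb H' ψ' ∧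
      Set.range ψ' = (fun v => Function.update v c false) '' Set.range ψ := by
  by_cases hc : ∃ x y, H.Adj x y ∧ ψ x c ≠ ψ y c
  · obtain ⟨x, y, hxy, hc⟩ := hc
    obtain ⟨ψ', k1, k2⟩ := h.contract hI hxy hc
    exact ⟨_, _, ψ', hm.contr x y hxy, k1, k2⟩
  · push Not at hc
    have hw : ∀ u v (p : H.Walk u v), ψ u c = ψ v c := by
      intro u v p
      induction p with
      | nil => rfl
      | cons a p ih => exact (hc _ _ a).trans ih
    have hd : ∀ u v, hammingDist (Function.update (ψ u) c false) (Function.update (ψ v) c false) =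
        hammingDist (ψ u) (ψ v) := by
      intro u v
      obtain ⟨p, -⟩ := h.walk hI subset_rfl _ u v ⟨u, rfl⟩ ⟨v, rfl⟩ rfl
      exact hd_update_eq (hw u v p)
    refine ⟨W', H, fun u => Function.update (ψ u) c false, hm, ⟨fun u v e => ?_, fun u v => ?_⟩,
      by rw [← Set.range_comp]; rfl⟩
    · have := hd u v
      have e' : Function.update (ψ u) c false = Function.update (ψ v) c false := e
      rw [e', hammingDist_self] at this
      exact h.inj (hammingDist_eq_zero.1 this.symm)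
    · rw [hd, h.adj]

lemma minor_all {W' : Type} {H : SimpleGraph W'} {ψ : W' → T → Bool} (hm : PcMinor G W' H)
    (h : Emb H ψ) (hI : Iso (Set.range ψ)) (C : Finset T) :
    ∃ (W'' : Type) (H' : SimpleGraph W'') (ψ' : W'' → T → Bool), PcMinor G W'' H' ∧ Emb H' ψ' ∧
      Iso (Set.range ψ') ∧ Set.range ψ' = zer C '' Set.range ψ := by
  induction C using Finset.induction_on with
  | empty => exact ⟨W', H, ψ, hm, h, hI, by
      have : zer (∅ : Finset T) = id := by funext v t; simp [zer]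
      simp [this]⟩
  | insert c C hc ih =>
    obtain ⟨W1, H1, ψ1, a1, a2, a3, a4⟩ := ih
    obtain ⟨W2, H2, ψ2, b1, b2, b3⟩ := minor_step a1 a2 a3 c
    refine ⟨W2, H2, ψ2, b1, b2, b3 ▸ a3.update c, ?_⟩
    rw [b3, a4, Set.image_image]
    congr 1
    funext v t
    by_cases k : t = c
    · subst k; simp [zer]
    · simp [zer, k]

/-- the three sign bits -/
def tri (p q r : T × Bool) (v : T → Bool) : Fin 3 → Bool :=
  ![v p.1 == p.2, v q.1 == q.2, v r.1 == r.2]

lemma hd_tri {p q r : T × Bool} (hd : Dis p q r) {u v : T → Bool}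
    (h : ∀ t, t ≠ p.1 → t ≠ q.1 → t ≠ r.1 → u t = v t) :
    hammingDist (tri p q r u) (tri p q r v) = hammingDist u v := by
  obtain ⟨d1, d2, d3⟩ := hd
  have b : ∀ a b c : Bool, ((a == c) ≠ (b == c)) ↔ a ≠ b := by decide
  refine card_bij (fun i _ => ![p.1, q.1, r.1] i) ?_ ?_ ?_
  · intro i hi
    simp only [mem_filter, mem_univ, true_and] at hi ⊢
    fin_cases i <;> exact (b _ _ _).1 hi
  · intro i _ j _ e
    fin_cases i <;> fin_cases j <;> simp_all
  · intro t ht
    simp only [mem_filter, mem_univ, true_and] at ht ⊢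
    by_cases k1 : t = p.1
    · exact ⟨0, (b _ _ _).2 (k1 ▸ ht), k1.symm⟩
    by_cases k2 : t = q.1
    · exact ⟨1, (b _ _ _).2 (k2 ▸ ht), k2.symm⟩
    by_cases k3 : t = r.1
    · exact ⟨2, (b _ _ _).2 (k3 ▸ ht), k3.symm⟩
    exact absurd (h t k1 k2 k3) ht

lemma emb_q3 : Emb Q3minus (fun a => a.1) := by
  refine ⟨fun _ _ e => Subtype.ext e, fun u v => ?_⟩
  simp only [Q3minus, SimpleGraph.comap_adj, Function.Embedding.subtype_apply,
    SimpleGraph.fromRel_adj]
  refine ⟨fun h => h.2.elim id fun k => hammingDist_comm u.1 v.1 ▸ k, fun h => ⟨fun e => ?_, .inl h⟩⟩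
  rw [e] at h
  simp at h

theorem good_of {ψ : W → T → Bool} (h : Emb G ψ) (hI : Iso (Set.range ψ))
    (hq : ∀ (W' : Type) (H : SimpleGraph W'), PcMinor G W' H →
      IsEmpty (SimpleGraph.Iso H Q3minus)) : Good (Set.range ψ) := by
  refine ⟨hI, fun R x p q r hd h6 h7 => ?_⟩
  by_contra hn
  have hU := hI.inter R x
  have e0 : Set.range (fun u : {u | ψ u ∈ cube R x} => ψ u.1) = Set.range ψ ∩ cube R x := by
    ext v
    constructor
    · rintro ⟨u, rfl⟩
      exact ⟨⟨u.1, rfl⟩, u.2⟩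
    · rintro ⟨⟨u, rfl⟩, hu⟩
      exact ⟨⟨u, hu⟩, rfl⟩
  obtain ⟨W1, H1, ψ1, a1, a2, -, a4⟩ := minor_all (PcMinor.refl.restr _ (h.convex R x hU))
    (h.induce _) (e0 ▸ hU) (univ.filter fun t => t ≠ p.1 ∧ t ≠ q.1 ∧ t ≠ r.1)
  rw [e0] at a4
  generalize Set.range ψ ∩ cube R x = U at *
  have tz : ∀ v, tri p q r (zer (univ.filter fun t => t ≠ p.1 ∧ t ≠ q.1 ∧ t ≠ r.1) v) =
      tri p q r v := by
    intro v
    simp [tri, zer]
  have hd1 : ∀ u v, hammingDist (tri p q r (ψ1 u)) (tri p q r (ψ1 v)) =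
      hammingDist (ψ1 u) (ψ1 v) := by
    intro u v
    obtain ⟨a, -, ha⟩ := a4.subset ⟨u, rfl⟩
    obtain ⟨b, -, hb⟩ := a4.subset ⟨v, rfl⟩
    refine hd_tri hd fun t k1 k2 k3 => ?_
    rw [← ha, ← hb]
    simp [zer, k1, k2, k3]
  have e1 : Emb H1 (fun u => tri p q r (ψ1 u)) := by
    refine ⟨fun u v e => ?_, fun u v => by rw [hd1, a2.adj]⟩
    have := hd1 u v
    have e' : tri p q r (ψ1 u) = tri p q r (ψ1 v) := e
    rw [e', hammingDist_self] at this
    exact a2.inj (hammingDist_eq_zero.1 this.symm)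
  refine (hq _ _ a1).false (e1.iso emb_q3 ?_).some
  have : Set.range (fun u => tri p q r (ψ1 u)) = tri p q r '' U := by
    rw [show (fun u => tri p q r (ψ1 u)) = tri p q r ∘ ψ1 from rfl, Set.range_comp, a4,
      Set.image_image]
    simp only [tz]
  rw [this, Subtype.range_coe]
  ext y
  constructor
  · rintro ⟨v, hv, rfl⟩ e
    have k0 := congrFun e 0
    have k1 := congrFun e 1
    have k2 := congrFun e 2
    simp [tri] at k0 k1 k2
    exact hn ⟨v, hv, k0, k1, k2⟩
  · intro hy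
    have ey : y = ![y 0, y 1, y 2] := by
      funext i
      fin_cases i <;> rfl
    obtain ⟨s1, s2, s3, s4, s5, s6⟩ := h6
    have fin : ∀ a b c : Bool, (∃ v ∈ U, (sat v p ↔ a = true) ∧ (sat v q ↔ b = true) ∧
        (sat v r ↔ c = true)) → ![a, b, c] ∈ tri p q r '' U := by
      rintro a b c ⟨v, hv, k1, k2, k3⟩
      refine ⟨v, hv, ?_⟩
      simp only [sat] at k1 k2 k3
      have b1 : ∀ a b c : Bool, (a = b ↔ c = true) → (a == b) = c := by decide
      simp only [tri, b1 _ _ _ k1, b1 _ _ _ k2, b1 _ _ _ k3]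
    rw [ey] at hy ⊢
    generalize y 0 = a at *
    generalize y 1 = b at *
    generalize y 2 = c at *
    apply fin
    simp only [A3, sat_ng] at s1 s2 s3 s4 s5 s6 h7
    cases a <;> cases b <;> cases c
    · simpa using h7
    · simpa using s6
    · simpa using s5
    · simpa using s1
    · simpa using s4
    · simpa using s2
    · simpa using s3
    · exact absurd (funext fun i => by fin_cases i <;> rfl) hy

end Pool.Agent.P.MP_25e9c6_co
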