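import Pool.Agent.P.MP_25e9c6_co.Minor
import Pool.Agent.P.MP_25e9c6_co.Cone

namespace Pool.Agent.P.MP_25e9c6_co

open Finset

variable {d : ℕ} {J : Type}

/-- the functional `f j` with the sign given by `X j` -/
def sg (f : J → (Fin d → ℝ) →ₗ[ℝ] ℝ) (X : J → Bool) (j : J) : (Fin d → ℝ) →ₗ[ℝ] ℝ :=
  if X j then f j else -f j

def cell (f : J → (Fin d → ℝ) →ₗ[ℝ] ℝ) (X : J → Bool) : Set (Fin d → ℝ) :=
  {y | ∀ j, 0 < sg f X j y}

lemma ker_sg (f : J → (Fin d → ℝ) →ₗ[ℝ] ℝ) (X : J → Bool) (j : J) :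
    LinearMap.ker (sg f X j) = LinearMap.ker (f j) := by
  by_cases h : X j = true <;> simp [sg, h]

lemma sg_ne (f : J → (Fin d → ℝ) →ₗ[ℝ] ℝ) {X Y : J → Bool} {j : J} (h : X j ≠ Y j) :
    sg f Y j = -sg f X j := by
  revert h
  simp only [sg]
  cases X j <;> cases Y j <;> simp

lemma sg_eq (f : J → (Fin d → ℝ) →ₗ[ℝ] ℝ) {X Y : J → Bool} {j : J} (h : X j = Y j) :
    sg f Y j = sg f X j := by
  simp only [sg, h]

lemma cell_uniq (f : J → (Fin d → ℝ) →ₗ[ℝ] ℝ) {X Y : J → Bool} {x} (h1 : x ∈ cell f X)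
    (h2 : x ∈ cell f Y) : X = Y := by
  funext j
  by_contra h
  have a := h1 j
  have b := h2 j
  rw [sg_ne f h, LinearMap.neg_apply] at b
  linarith

lemma comp_eq (f : J → (Fin d → ℝ) →ₗ[ℝ] ℝ) {X : J → Bool} {x} (hx : x ∈ cell f X) :
    connectedComponentIn {y | ∀ j, y ∉ LinearMap.ker (f j)} x = cell f X := by
  apply Set.Subset.antisymm
  · intro y hy j
    by_contra hn
    have hx' : x ∈ connectedComponentIn {y | ∀ j, y ∉ LinearMap.ker (f j)} x :=
      mem_connectedComponentIn fun j => by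
        rw [← ker_sg f X, LinearMap.mem_ker]
        exact (hx j).ne'
    obtain ⟨z, hz, hz0⟩ := isPreconnected_connectedComponentIn.intermediate_value hy hx'
      (f := sg f X j) (sg f X j).continuous_of_finiteDimensional.continuousOn
      (show (0 : ℝ) ∈ Set.Icc _ _ from ⟨not_lt.1 hn, (hx j).le⟩)
    refine connectedComponentIn_subset _ _ hz j ?_
    rw [← ker_sg f X, LinearMap.mem_ker]
    exact hz0
  · refine IsPreconnected.subset_connectedComponentIn (Convex.isPreconnected ?_) hx ?_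
    · have : cell f X = ⋂ j, {y | 0 < sg f X j y} := by
        ext y
        simp [cell]
      rw [this]
      exact convex_iInter fun j => convex_halfSpace_gt (sg f X j).isLinear 0
    · intro y hy j
      rw [← ker_sg f X, LinearMap.mem_ker]
      exact (hy j).ne'

lemma sep_iff (f : J → (Fin d → ℝ) →ₗ[ℝ] ℝ) {X Y : J → Bool} (hX : (cell f X).Nonempty)
    (hY : (cell f Y).Nonempty) (j : J) :
    Separates (LinearMap.ker (f j)) (cell f X) (cell f Y) ↔ X j ≠ Y j := by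
  constructor
  · rintro ⟨g, hg, g1, g2⟩ h
    obtain ⟨x, hx⟩ := hX
    obtain ⟨y, hy⟩ := hY
    have a : g x • y - g y • x ∈ LinearMap.ker g := by
      simp [LinearMap.mem_ker, mul_comm]
    rw [hg, ← ker_sg f X, LinearMap.mem_ker] at a
    have b1 := hx j
    have b2 := hy j
    rw [sg_eq f h] at b2
    simp only [map_sub, map_smul, smul_eq_mul] at a
    nlinarith [mul_pos (g1 x hx) b2, mul_pos (neg_pos.2 (g2 y hy)) b1]
  · intro h
    refine ⟨sg f X j, ker_sg f X j, fun x hx => hx j, fun y hy => ?_⟩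
    have := hy j
    rw [sg_ne f h, LinearMap.neg_apply] at this
    linarith

theorem tope [Fintype J] (f : J → (Fin d → ℝ) →ₗ[ℝ] ℝ)
    (hinj : Function.Injective fun j => LinearMap.ker (f j))
    (𝒜 : Finset (Submodule ℝ (Fin d → ℝ))) (h𝒜 : ∀ H, H ∈ 𝒜 ↔ ∃ j, LinearMap.ker (f j) = H) :
    ∃ σ : regions 𝒜 → J → Bool, Emb (topeGraph 𝒜) σ ∧
      ∀ X, X ∈ Set.range σ ↔ (cell f X).Nonempty := by
  have hU : {y | ∀ H ∈ 𝒜, y ∉ H} = {y | ∀ j, y ∉ LinearMap.ker (f j)} := by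
    ext y
    simp only [Set.mem_ofPred_eq, h𝒜]
    exact ⟨fun h j => h _ ⟨j, rfl⟩, by rintro h _ ⟨j, rfl⟩; exact h j⟩
  have ex : ∀ R : regions 𝒜, ∃ X, R.1 = cell f X ∧ (cell f X).Nonempty := by
    rintro ⟨R, x, hx, rfl⟩
    have : x ∈ cell f (fun j => decide (0 < f j x)) := by
      intro j
      have : f j x ≠ 0 := hx _ ((h𝒜 _).2 ⟨j, rfl⟩)
      by_cases h : 0 < f j x
      · simp [sg, h]
      · simpa [sg, h] using lt_of_le_of_ne (not_lt.1 h) this
    exact ⟨_, (congrArg (connectedComponentIn · x) hU).trans (comp_eq f this), x, this⟩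
  choose σ h1 h2 using ex
  have inj : Function.Injective σ := fun a b e => Subtype.ext (by rw [h1, h1, e])
  have key : ∀ R R' : regions 𝒜, (∃! H, H ∈ 𝒜 ∧ Separates H R.1 R'.1) ↔
      hammingDist (σ R) (σ R') = 1 := by
    intro R R'
    rw [hammingDist, card_eq_one_iff_existsUnique, h1, h1]
    simp only [mem_filter, mem_univ, true_and]
    constructor
    · rintro ⟨H, ⟨a, b⟩, c⟩
      obtain ⟨j, rfl⟩ := (h𝒜 H).1 a
      exact ⟨j, (sep_iff f (h2 R) (h2 R') j).1 b, fun k hk =>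
        hinj (c _ ⟨(h𝒜 _).2 ⟨k, rfl⟩, (sep_iff f (h2 R) (h2 R') k).2 hk⟩)⟩
    · rintro ⟨j, a, b⟩
      refine ⟨_, ⟨(h𝒜 _).2 ⟨j, rfl⟩, (sep_iff f (h2 R) (h2 R') j).2 a⟩, ?_⟩
      rintro H ⟨c, e⟩
      obtain ⟨k, rfl⟩ := (h𝒜 H).1 c
      rw [b k ((sep_iff f (h2 R) (h2 R') k).1 e)]
  refine ⟨σ, ⟨inj, fun R R' => ?_⟩, fun X => ⟨by rintro ⟨R, rfl⟩; exact h2 R, ?_⟩⟩
  · simp only [topeGraph, SimpleGraph.fromRel_adj, key]
    refine ⟨fun h => h.2.elim id fun k => hammingDist_comm (σ R) (σ R') ▸ k,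
      fun h => ⟨fun e => ?_, .inl h⟩⟩
    rw [e] at h
    simp at h
  · rintro ⟨x, hx⟩
    have hx' : ∀ H ∈ 𝒜, x ∉ H := by
      intro H hH
      obtain ⟨j, rfl⟩ := (h𝒜 H).1 hH
      rw [← ker_sg f X, LinearMap.mem_ker]
      exact (hx j).ne'
    refine ⟨⟨_, x, hx', rfl⟩, cell_uniq f (x := x) ?_ hx⟩
    rw [← h1]
    exact mem_connectedComponentIn hx'

end Pool.Agent.P.MP_25e9c6_co
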